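import Mathlib
import Pool.Agent.L7h19.IK.Stm
import Pool.Agent.L7h19.RH.Defs
import Pool.Agent.L7h19.RP.Defs2

/-!
# Project FT (helper19, helper72; MP_157626_nt): full rational 2-torsion, all moments

`E : y² = x (x - F 0) (x - F 1)`, `F 2 = F 0 - F 1`. A prime of class `c : Fin 3` divides only `F c`
(once): multiplicative reduction, split or nonsplit. `m c` is the product of the primes of class `c`,
`E` is the set of the nonsplit primes. The 2-Selmer group is, up to bounded factors, the group `K` of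
the divisors `d` of `m 0 * m 1 * m 2` such that for all `p`: the product of the symbols `(q / p)` over
the `q ∣ d` of the classes different from that of `p`, times `-1` if `p ∣ d` is nonsplit, is `1`.
-/

set_option autoImplicit false

namespace Pool.Agent.L7h19.FT

open Finset Polynomial Pool.Agent.W262.RK Pool.Agent.W307.RT Pool.Agent.L7h19.RP
open Pool.Agent.L7h19.RP.AT (gm)
open Pool.Agent.L7h19.RH (Q0)
open Pool.Agent.L7h19.IK (Idp)
open Pool.Agent.H474R2.PG (rho)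

/-! ## Pointwise -/

/-- the product `m 0 * m 1 * m 2` -/
def Mt (m : Fin 3 → ℕ) : ℕ := ∏ c, m c

/-- the symbol of `q` in the condition at the prime `p` -/
def sy3 (m : Fin 3 → ℕ) (E : Finset ℕ) (p q : ℕ) : ℤ :=
  if q = p then (if p ∈ E then -1 else 1) else
    if ∃ c, p ∣ m c ∧ q ∣ m c then 1 else jacobiSym (q : ℤ) p

/-- the number of elements of `K` -/
def N0 (m : Fin 3 → ℕ) (E : Finset ℕ) : ℕ := ((Mt m).divisors.filter (fun d : ℕ =>
  ∀ p ∈ (Mt m).primeFactors, (∏ q ∈ d.primeFactors, sy3 m E p q) = 1)).card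

/-- the split primes of class `c` -/
def Ms (m : Fin 3 → ℕ) (E : Finset ℕ) (c : Fin 3) : ℕ :=
  ∏ p ∈ (m c).primeFactors.filter (fun p => p ∉ E), p

/-- the primes of the other classes -/
def Mo (m : Fin 3 → ℕ) (c : Fin 3) : ℕ := ∏ e ∈ univ.filter (fun e : Fin 3 => e ≠ c), m e

/-- `δ_c`: the number of the split primes of class `c` minus the number of the primes of the other
classes -/
def dl (m : Fin 3 → ℕ) (E : Finset ℕ) (c : Fin 3) : ℤ :=
  ((Ms m E c).primeFactors.card : ℤ) - ((Mo m c).primeFactors.card : ℤ)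

/-- the normalizing exponent `max (0, δ_c : c ∉ G)`; the main case is `G = ∅` -/
def ex (G : Finset (Fin 3)) (m : Fin 3 → ℕ) (E : Finset ℕ) : ℕ :=
  (univ.filter (fun c => c ∉ G)).sup (fun c => (dl m E c).toNat)

/-- the majorant -/
noncomputable def gF (G : Finset (Fin 3)) (m : Fin 3 → ℕ) (E : Finset ℕ) : ℝ :=
  (N0 m E : ℝ) / 2 ^ (ex G m E)

/-- the `k`-tuples of divisors all of whose nonzero combinations have primes of two classes -/
def Cd (k : ℕ) (m : Fin 3 → ℕ) (d : Fin k → ℕ) : Prop := ∀ y : Fin k → ZMod 2, y ≠ 0 →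
  ∃ c c' : Fin 3, c ≠ c' ∧ (∃ p ∈ (m c).primeFactors, ∑ i, y i * (if p ∣ d i then 1 else 0) ≠ 0) ∧
    ∃ p ∈ (m c').primeFactors, ∑ i, y i * (if p ∣ d i then 1 else 0) ≠ 0

instance (k : ℕ) (m : Fin 3 → ℕ) : DecidablePred (Cd k m) := fun d => by
  unfold Cd
  infer_instance

/-- the number of these tuples in `K ^ k` -/
noncomputable def TK (k : ℕ) (m : Fin 3 → ℕ) (E : Finset ℕ) : ℝ :=
  (∑ d ∈ (Fintype.piFinset (fun _ : Fin k => (Mt m).divisors)).filter (Cd k m),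
    ∑ e ∈ Fintype.piFinset (fun _ : Fin k => (Mt m).divisors),
      ∏ i, ∏ p ∈ (e i).primeFactors, ∏ q ∈ (d i).primeFactors, (sy3 m E p q : ℝ)) /
    2 ^ (k * (Mt m).primeFactors.card)

/-- sums over tuples `d` of divisors of `Ms m E c`, `e` of `Mo m c`; the `d` (if `τ`) or the `e` (if
not `τ`) are independent modulo squares -/
noncomputable def FK (τ : Bool) (a b r : ℕ) (m : Fin 3 → ℕ) (E : Finset ℕ) (c : Fin 3) : ℝ :=
  (∑ d ∈ Fintype.piFinset (fun _ : Fin r => (Ms m E c).divisors),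
    ∑ e ∈ Fintype.piFinset (fun _ : Fin r => (Mo m c).divisors),
      if (if τ = true then Idp r (Ms m E c) d else Idp r (Mo m c) e) then
        ∏ i, ∏ p ∈ (d i).primeFactors, ∏ q ∈ (e i).primeFactors, ((jacobiSym (p : ℤ) q : ℤ) : ℝ)
      else 0) /
    (2 ^ (a * (Ms m E c).primeFactors.card) * 2 ^ (b * (Mo m c).primeFactors.card))

/-- the numbers `m c` are odd, squarefree and pairwise coprime -/
def Ok (m : Fin 3 → ℕ) : Prop := Odd (Mt m) ∧ Squarefree (Mt m)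

/-- **S_LAF**: the pointwise bound. Let `K_c` be the subspace of the elements of `K` supported in the
class `c`, that is the `d ∣ Ms m E c` with `∏_{p ∣ d} (p / q) = 1` for all primes `q ∣ Mo m c`.
(1) Choosing the vectors one after the other, the number of the `k`-tuples in `K` with `Cd` is at
least `∏_{i < k} (|K| - 2 ^ i (|K_0| + |K_1| + |K_2|))`; so either `|K| ≤ 2 ^ (k + 1) ∑ |K_c|`, or
`|K| ^ k ≤ 2 ^ k TK k m E`. (2) `|K_c| ^ k ≤ 2 ^ (k²) (1 + Ind_k(K_c))` with the number `Ind_k` of the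
linearly independent `k`-tuples, and `Ind_k(K_c) = FK true 0 k k m E c`. (3) For the transposed
matrix `K'_c = {e ∣ Mo m c : ∏_{q ∣ e} (p / q) = 1 for all p ∣ Ms m E c}`:
`|K_c| = 2 ^ (dl m E c) |K'_c|` (count twice). If `dl ≥ 0` use
`(|K_c| 2 ^ (-dl)) ^ k = |K'_c| ^ k ≤ 2 ^ (k²) (1 + Ind_k(K'_c))` and
`FK false 0 k k m E c = 2 ^ (k dl) Ind_k(K'_c)`; if `dl < 0` use
`|K_c| ^ k ≤ 2 ^ (k²) (1 + Ind_k(K_c))` and `FK true k 0 k m E c = 2 ^ (-k dl) Ind_k(K_c)`.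
Compare `Pool.Agent.L7h65.IK` (`S_LA`, `Pool/Agent/L7h65/IK/La.lean`). -/
def S_LAF : Prop := ∀ (k : ℕ) (m : Fin 3 → ℕ) (E : Finset ℕ) (G : Finset (Fin 3)), Ok m →
  0 ≤ TK k m E ∧ (∀ τ a b c, 0 ≤ FK τ a b k m E c) ∧
  gF G m E ^ k ≤ 4 ^ ((k + 2) ^ 2) * (1 + TK k m E + ∑ c ∈ G, FK true 0 k k m E c +
    ∑ c ∈ univ.filter (fun c => c ∉ G), (FK false 0 k k m E c + FK true k 0 k m E c))

variable {J : Type} [Fintype J] [DecidableEq J]

/-- the product of the parts of class `c` -/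
def mc (cls : J → Fin 3) (s : J → ℕ) (c : Fin 3) : ℕ := ∏ j ∈ univ.filter (fun j => cls j = c), s j

/-- **S_GRF**: growth of the majorant. A tuple of divisors restricted to `∏ s j`: the `d` with given
prime-to-`∏ s j` part form a coset of a subspace of the space for `s`, so
`N0 (s e) ≤ 2 ^ ω(e) N0 s`; and each new prime changes each `dl` by at most `1`. -/
def S_GRF : Prop := ∀ (J : Type) [Fintype J] [DecidableEq J] (cls : J → Fin 3)
  (G : Finset (Fin 3)) (z y : ℕ) (s e : J → ℕ) (E : Finset ℕ), 2 ≤ z →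
  (fun j => s j * e j) ∈ Tup J z y →
  gF G (mc cls s) E = gF G (mc cls s) (E ∩ Q0 s) ∧
  gF G (mc cls (fun j => s j * e j)) E ≤ 4 ^ (∑ j, (e j).primeFactors.card) * gF G (mc cls s) E

/-! ## The expansions, for arbitrary weights of the split (`A`) and the nonsplit (`B`) primes -/

/-- the weight of the sign pattern `E` -/
noncomputable def WE (A B : J → ℕ → ℝ) (s : J → ℕ) (E : Finset ℕ) : ℝ :=
  ∏ j, ∏ p ∈ (s j).primeFactors, (if p ∈ E then B j p else A j p)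

/-- the sum over all sign patterns -/
noncomputable def avE (A B : J → ℕ → ℝ) (Φ : Finset ℕ → ℝ) (s : J → ℕ) : ℝ :=
  ∑ E ∈ (Q0 s).powerset, Φ E * WE A B s E

/-- labels `(j, (v, x))`: `v i = 1` if the prime divides `d i`, `x i = 1` if it divides `e i` -/
abbrev LabT (J : Type) (k : ℕ) : Type := J × ((Fin k → ZMod 2) × (Fin k → ZMod 2))

/-- the weights -/
noncomputable def bT (A B : J → ℕ → ℝ) (k : ℕ) (i : LabT J k) (p : ℕ) : ℝ :=
  (A i.1 p + (if i.2.1 ⬝ᵥ i.2.2 = 0 then 1 else -1) * B i.1 p) / 2 ^ k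

/-- the symbols -/
def LT (cls : J → Fin 3) (k : ℕ) (i l : LabT J k) : Bool :=
  decide (cls i.1 ≠ cls l.1) && decide (i.2.1 ⬝ᵥ l.2.2 ≠ 0)

/-- the condition on the support -/
def QT (cls : J → Fin 3) (k : ℕ) (U : Finset (LabT J k)) : Prop := ∀ y : Fin k → ZMod 2, y ≠ 0 →
  ∃ i ∈ U, ∃ l ∈ U, cls i.1 ≠ cls l.1 ∧ y ⬝ᵥ i.2.1 ≠ 0 ∧ y ⬝ᵥ l.2.1 ≠ 0

instance (cls : J → Fin 3) (k : ℕ) : DecidablePred (QT cls k) := fun U => by
  unfold QT
  infer_instance

/-- **S_EXT**: the expansion of `TK`. Compare `S_EXP5` (`Pool.Agent.L7h56.IK.s_EXP5`,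
`Pool/Agent/L7h56/IK/Exp5.lean`). A prime `p ∣ s j` gets the label `(j, (v, x))`; the factor of
`q = p` is `(-1) ^ (v ⬝ᵥ x)` if `p ∈ E`. Two primes of the same class: no symbol. -/
def S_EXT : Prop := ∀ (J : Type) [Fintype J] [DecidableEq J] (cls : J → Fin 3)
  (A B : J → ℕ → ℝ) (k z y : ℕ), 2 ≤ z →
  ∑ s ∈ Tup J z y, avE A B (fun E => TK k (mc cls s) E) s =
    ∑ d ∈ (Tup (LabT J k) z y).filter (fun d => QT cls k (univ.filter (fun i => d i ≠ 1))),
      (∏ i : LabT J k, gm (bT A B k i) (d i)) * Sym (LT cls k) (fun _ => 1) d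

/-- labels `(j, u, h)`: `u i = 1` if the prime divides `d i` (class `c`) or `e i` (other classes), `h`
is arbitrary -/
abbrev LabF (J : Type) (r : ℕ) : Type := J × (Fin r → ZMod 2) × Bool

/-- the weights -/
noncomputable def bF (cls : J → Fin 3) (c : Fin 3) (A B : J → ℕ → ℝ) (a b r : ℕ) (i : LabF J r)
    (p : ℕ) : ℝ :=
  if cls i.1 = c then ((if i.2.1 = 0 then B i.1 p else 0) + A i.1 p / 2 ^ a) / 2 else
    (A i.1 p + B i.1 p) / 2 ^ b / 2

/-- the symbols -/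
def LF (cls : J → Fin 3) (c : Fin 3) (r : ℕ) (i l : LabF J r) : Bool :=
  decide (cls i.1 = c) && decide (cls l.1 ≠ c) && decide (i.2.1 ⬝ᵥ l.2.1 ≠ 0)

/-- the condition on the support -/
def QF (cls : J → Fin 3) (c : Fin 3) (τ : Bool) (r : ℕ) (U : Finset (LabF J r)) : Prop :=
  ∀ y : Fin r → ZMod 2, y ≠ 0 → ∃ i ∈ U, (cls i.1 = c ↔ τ = true) ∧ y ⬝ᵥ i.2.1 ≠ 0

instance (cls : J → Fin 3) (c : Fin 3) (τ : Bool) (r : ℕ) : DecidablePred (QF cls c τ r) :=
  fun U => by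
    unfold QF
    infer_instance

/-- **S_EXF**: the expansion of `FK`. The primes of class `c` in `E` do not divide any `d i`. The
label of a prime of class `c`: `u i = 1` if it divides `d i`; other classes: if it divides `e i`; `h`
splits the weights into two halves. -/
def S_EXF : Prop := ∀ (J : Type) [Fintype J] [DecidableEq J] (cls : J → Fin 3) (c : Fin 3)
  (A B : J → ℕ → ℝ) (τ : Bool) (a b r z y : ℕ), 2 ≤ z →
  ∑ s ∈ Tup J z y, avE A B (fun E => FK τ a b r (mc cls s) E c) s =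
    ∑ d ∈ (Tup (LabF J r) z y).filter (fun d => QF cls c τ r (univ.filter (fun i => d i ≠ 1))),
      (∏ i : LabF J r, gm (bF cls c A B a b r i) (d i)) * Sym (LF cls c r) (fun _ => 1) d

/-! ## The values of polynomials -/

/-- the primes `p` of the tuple `s` for which `κ_j(t)` is not a square modulo `p` (`p ∣ s j`) -/
noncomputable def nF (κ : J → ℤ[X]) (s : J → ℕ) (t : ℤ) : Finset ℕ := by
  classical
  exact (Q0 s).filter (fun p => ∃ j, p ∣ s j ∧ jacobiSym ((κ j).eval t) p = -1)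

/-- the weights of the split primes: `(ρ + ∑ (κ(ν) / p)) / (2 (p - c))` -/
noncomputable def aP (f κ : J → ℤ[X]) (c : ℕ) (j : J) (p : ℕ) : ℝ :=
  (gaw (f j) 1 c p + bw (f j) (κ j) 1 c p) / 2

/-- the weights of the nonsplit primes -/
noncomputable def bP (f κ : J → ℤ[X]) (c : ℕ) (j : J) (p : ℕ) : ℝ :=
  (gaw (f j) 1 c p - bw (f j) (κ j) 1 c p) / 2

/-- **S_CRT**: the sum over the residue classes. (`Rs f s` is the set of the `r` modulo `∏ s j` with
`s j ∣ f_j(r)`; compare `Pool.Agent.L7h19.RP.card_Rs` and `Pool/Agent/L7h19/RP/Exp.lean`.) -/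
def S_CRT : Prop := ∀ (J : Type) [Fintype J] [DecidableEq J] (f κ : J → ℤ[X]) (c z y : ℕ),
  2 ≤ z → c < z →
  (∀ p : ℕ, p.Prime → z < p → ∀ j (t : ℤ), (p : ℤ) ∣ (f j).eval t → ¬ (p : ℤ) ∣ (κ j).eval t) →
  ∀ s ∈ Tup J z y, ∀ Φ : Finset ℕ → ℝ,
    (∑ r ∈ Rs f s, Φ (nF κ s (r : ℤ))) * ∏ j, gw 1 c (s j) = avE (aP f κ c) (bP f κ c) Φ s

/-- **S_GRR**: growth of sums over the residue classes: for each class modulo `∏ s j` there are at
most `c ^ ω(∏ e j)` classes modulo `∏ s j * e j`. Compare `StSub` (`Pool/Agent/L7h19/RP/Defs2.lean`). -/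
def S_GRR : Prop := ∀ (J : Type) [Fintype J] [DecidableEq J] (f κ : J → ℤ[X]) (c z y : ℕ)
  (b : ℝ) (Φ : (J → ℕ) → Finset ℕ → ℝ), 2 ≤ z → 0 ≤ b →
  (∀ p : ℕ, p.Prime → z < p → ∀ j, rho (f j) p ≤ c) →
  (∀ s E, 0 ≤ Φ s E) →
  (∀ (s e : J → ℕ) (E : Finset ℕ), (fun j => s j * e j) ∈ Tup J z y →
    Φ s E = Φ s (E ∩ Q0 s) ∧
    Φ (fun j => s j * e j) E ≤ b ^ (∑ j, (e j).primeFactors.card) * Φ s E) →
  ∀ s e : J → ℕ, (fun j => s j * e j) ∈ Tup J z y →
    ∑ r ∈ Rs f (fun j => s j * e j), Φ (fun j => s j * e j) (nF κ (fun j => s j * e j) (r : ℤ)) ≤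
      (b * c) ^ (∑ j, (e j).primeFactors.card) * ∑ r ∈ Rs f s, Φ s (nF κ s (r : ℤ))

/-- **S_UP2**: `StUp` in absolute value (`Pool.Agent.L7h50.UP.stUp`; lower bounds from `upper K`
and `lower_eps K'`) -/
def S_UP2 : Prop := ∀ (f κ : ℤ[X]) (ε : ℝ) (c : ℕ), Irreducible f → 0 < f.natDegree → ¬ f ∣ κ →
  0 < ε → ∃ z0 : ℕ, ∀ z : ℕ, z0 ≤ z → ∃ C : ℝ, ∀ (y r : ℕ) (t : Bool), z < y →
  1 < r → Squarefree r → (∀ p : ℕ, p.Prime → p ∣ r → z < p) →
    |∑ p ∈ PS z y, bw f κ 1 c p * (Jr p r * x4 t p)| ≤ ε * Real.log r + C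

/-- **S_UP02**: `StUp0` in absolute value (`Pool.Agent.L7h50.UP`; Mertens for both fields) -/
def S_UP02 : Prop := ∀ (f κ : ℤ[X]) (c : ℕ), Irreducible f → 0 < f.natDegree → ¬ f ∣ κ →
  ¬ IsSquare (AdjoinRoot.mk (f.map (Int.castRingHom ℚ)) (κ.map (Int.castRingHom ℚ))) →
  ∃ z0 : ℕ, ∀ z : ℕ, z0 ≤ z → ∃ C : ℝ, ∀ y : ℕ, z < y → |∑ p ∈ PS z y, bw f κ 1 c p| ≤ C

/-! ## The rank -/

/-- the number of the odd primes `p ∣ n` such that `κ` is a nonzero square modulo `p` -/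
def sp (κ n : ℤ) : ℕ := (n.natAbs.primeFactors.filter (fun p => p ≠ 2 ∧ jacobiSym κ p = 1)).card

/-- `δ_c` of the curve `y² = x (x - A) (x - B)` -/
def dz (A B : ℤ) (c : Fin 3) : ℤ :=
  if c = 0 then (sp (-B) A : ℤ) - IS.om B - IS.om (A - B)
  else if c = 1 then (sp (-A) B : ℤ) - IS.om A - IS.om (A - B)
  else (sp A (A - B) : ℤ) - IS.om A - IS.om B

/-- the normalizing exponent of the curve -/
def ez (G : Finset (Fin 3)) (A B : ℤ) : ℕ :=
  (univ.filter (fun c => c ∉ G)).sup (fun c => (dz A B c).toNat)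

/-- the values `F c` -/
def Fv (cls : J → Fin 3) (a : Fin 3 → ℤ) (x : J → ℤ) (c : Fin 3) : ℤ :=
  a c * ∏ j ∈ univ.filter (fun j => cls j = c), x j

/-- the number whose symbol decides the splitting, for the class `c` -/
def kz (A B : ℤ) (c : Fin 3) : ℤ := if c = 0 then -B else if c = 1 then -A else A

/-- **S_RKF**: the bound for values. From `DESC` (`Pool/Agent/W262/RK/Stm.lean`) with
`κ j = kz (F 0) (F 1) (cls j)`: `NN cls κ s = N0 (mc cls s) E` (`τ` corresponds to `∏ τ j`), where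
`E = {p : p ∣ s j, (κ_j / p) = -1}`. The other primes: at most `z` are `≤ z`, at most `D |J| k` are
`> y`, the other ones divide some `S2`. Compare `S_RK3` (`Pool.Agent.L7h89.IT`). -/
def S_RKF : Prop := ∀ (J : Type) [Fintype J] [DecidableEq J] (cls : J → Fin 3) (a : Fin 3 → ℤ)
  (G : Finset (Fin 3)) (x : J → ℤ) (z y X k D : ℕ) (E : Finset ℕ), 2 ≤ z → Gd z x →
  (∀ c, a c ≠ 0) → (∀ p : ℕ, p.Prime → z < p → ∀ c, ¬ (p : ℤ) ∣ a c) →
  Fv cls a x 0 - Fv cls a x 1 = Fv cls a x 2 →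
  (∀ j, (x j).natAbs ≤ X ^ D) → 1 ≤ X → 1 ≤ y → X < (y + 1) ^ k →
  (∀ j (p : ℕ), p.Prime → p ∣ S1 z y x j →
    (p ∈ E ↔ jacobiSym (kz (Fv cls a x 0) (Fv cls a x 1) (cls j)) p = -1)) →
  (2 : ℝ) ^ ((Module.finrank ℤ (EAB (Fv cls a x 0) (Fv cls a x 1)).toAffine.Point : ℕ) -
      (ez G (Fv cls a x 0) (Fv cls a x 1) : ℝ) : ℝ) ≤
    16 ^ (z + 2) * (16 ^ (D * Fintype.card J)) ^ k * 16 ^ (∑ j, (S2 z y x j).primeFactors.card) *
      gF G (mc cls (S1 z y x)) E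

end Pool.Agent.L7h19.FT
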