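import Mathlib
import Pool.Agent.L7h19.FT.Stm

/-!
# Project FT: second moments of the number of split primes, and squares
-/

set_option autoImplicit false

namespace Pool.Agent.L7h19.FT

open Finset Polynomial Pool.Agent.W262.RK Pool.Agent.W307.RT Pool.Agent.L7h19.RP

/-- **S_TKV** (replaces `S_TKS`): the second moment of the number `sp (κ(t)) (f(t))` of the odd primes
`p ∣ f(t)` for which `κ(t)` is a square modulo `p`. If `κ(θ)` is a square in `ℚ(θ)` (`f(θ) = 0`) these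
are almost all primes (adapt `Pool.Agent.L7h60.IS.s_TK`, `Pool/Agent/L7h60/IS/Tk.lean`, which bounds
the second moment inside). Otherwise it is `(ω(f(t)) + ∑_{p ∣ f(t)} (κ(t) / p)) / 2` up to a bounded
error; with `y = X ^ δ` the primes `> y` are boundedly many, and for the primes `z < p ≤ y` the second
moment of `∑_{p ∣ f(t)} (κ(t) / p)` is at most `(v - u) ((∑ bw)² + ∑ ρ(p) / p)` up to a small error,
where `|∑ bw| ≤ C` by `S_UP02` (a hypothesis: prove `S_UP02 → S_SQ → S_TKV`). -/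
def S_TKV : Prop := ∀ (f κ : ℤ[X]) (ε : ℝ), Irreducible f → 0 < f.natDegree → ¬ f ∣ κ → 0 < ε →
  ∃ C : ℝ, ∀ (X : ℕ) (u v : ℤ), 3 ≤ X → u.natAbs ≤ X → v.natAbs ≤ X → (X : ℝ) ^ ε ≤ (v : ℝ) - u →
    (IsSquare (AdjoinRoot.mk (f.map (Int.castRingHom ℚ)) (κ.map (Int.castRingHom ℚ))) →
      ∑ t ∈ (Icc u v).filter (fun t : ℤ => f.eval t ≠ 0),
        (((sp (κ.eval t) (f.eval t) : ℕ) : ℝ) - Real.log (Real.log X)) ^ 2 ≤
        C * ((v : ℝ) - u) * Real.log (Real.log X)) ∧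
    (¬ IsSquare (AdjoinRoot.mk (f.map (Int.castRingHom ℚ)) (κ.map (Int.castRingHom ℚ))) →
      ∑ t ∈ (Icc u v).filter (fun t : ℤ => f.eval t ≠ 0),
        (((sp (κ.eval t) (f.eval t) : ℕ) : ℝ) - Real.log (Real.log X) / 2) ^ 2 ≤
        C * ((v : ℝ) - u) * Real.log (Real.log X))

/-- **S_SQ**: if `κ(θ)` is a square in `ℚ(θ)`, then `κ(ν)` is a square modulo `p` for all large `p` and
all roots `ν` of `f` modulo `p`. (`d² κ = h² + f g` with integral `d ≠ 0`, `h`, `g`; and `p` does not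
divide `κ(ν)` for large `p`: `large_nd` in `Pool/Agent/L7h19/RP`.) -/
def S_SQ : Prop := ∀ f κ : ℤ[X], Irreducible f → 0 < f.natDegree → ¬ f ∣ κ →
  IsSquare (AdjoinRoot.mk (f.map (Int.castRingHom ℚ)) (κ.map (Int.castRingHom ℚ))) →
  ∃ z0 : ℕ, ∀ p : ℕ, p.Prime → z0 < p → ∀ ν : ℤ, (p : ℤ) ∣ f.eval ν → jacobiSym (κ.eval ν) p = 1

/-- **S_DZ**: the exponents `dz` (of the curve) and `dl` (of the tuple) differ by at most the number
of the other primes. Part of `S_RKF`. -/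
def S_DZ : Prop := ∀ (J : Type) [Fintype J] [DecidableEq J] (cls : J → Fin 3) (a : Fin 3 → ℤ)
  (x : J → ℤ) (z y X k D : ℕ) (E : Finset ℕ) (c : Fin 3), 2 ≤ z → Gd z x →
  (∀ c, a c ≠ 0) → (∀ p : ℕ, p.Prime → z < p → ∀ c, ¬ (p : ℤ) ∣ a c) →
  Fv cls a x 0 - Fv cls a x 1 = Fv cls a x 2 →
  (∀ j, (x j).natAbs ≤ X ^ D) → 1 ≤ X → 1 ≤ y → X < (y + 1) ^ k →
  (∀ j (p : ℕ), p.Prime → p ∣ Pool.Agent.W307.RT.S1 z y x j →
    (p ∈ E ↔ jacobiSym (kz (Fv cls a x 0) (Fv cls a x 1) (cls j)) p = -1)) →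
  |dz (Fv cls a x 0) (Fv cls a x 1) c - dl (mc cls (Pool.Agent.W307.RT.S1 z y x)) E c| ≤
    ((z + 2 + D * Fintype.card J * k +
      ∑ j, (Pool.Agent.W307.RT.S2 z y x j).primeFactors.card : ℕ) : ℤ)

end Pool.Agent.L7h19.FT
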