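import Mathlib
import Pool.Agent.L7h19.IT.Gen
import Pool.Agent.L7h19.FT.Stm

/-!
# Project FT: the general upper bound for sums over labels, for weights of split and nonsplit primes
-/

set_option autoImplicit false
set_option linter.unusedSectionVars false

namespace Pool.Agent.L7h19.FT

open Finset Polynomial Pool.Agent.W262.RK Pool.Agent.L7h19.RP Pool.Agent.L7h19.IS
open Pool.Agent.L7h19.RP.AT (gm hq BWg)

variable {J : Type} [Fintype J] [DecidableEq J]

/-- the hypotheses on the weights: `A` has mean `μ`, `B` has mean `1 - μ` -/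
def WHyp (A B : J → ℕ → ℝ) (μ : J → ℝ) : Prop := ∃ G zb : ℕ,
  (∀ z, zb ≤ z → ∀ p : ℕ, p.Prime → z < p → ∀ j, 0 ≤ A j p ∧ 0 ≤ B j p ∧
    A j p + B j p ≤ (G : ℝ) / p) ∧
  (∀ z, zb ≤ z → ∀ j, ∃ C : ℝ, ∀ y : ℕ, 2 ≤ y →
    ∑ p ∈ PS z y, A j p ≤ μ j * Real.log (Real.log y) + C ∧
    ∑ p ∈ PS z y, B j p ≤ (1 - μ j) * Real.log (Real.log y) + C) ∧
  (∀ j (ε : ℝ), 0 < ε → ∃ z0 : ℕ, ∀ z, z0 ≤ z → ∃ C : ℝ, ∀ (y r : ℕ) (t : Bool), z < y → 1 < r →
    Squarefree r → (∀ p : ℕ, p.Prime → p ∣ r → z < p) →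
    |∑ p ∈ PS z y, A j p * (Jr p r * x4 t p)| ≤ ε * Real.log r + C ∧
    |∑ p ∈ PS z y, B j p * (Jr p r * x4 t p)| ≤ ε * Real.log r + C)

lemma PSm {z y p : ℕ} (hp : p ∈ PS z y) : p.Prime ∧ z < p := by
  have h := mem_PS.1 hp
  exact ⟨h.2, h.1.1⟩

/-- the loglog is bounded below -/
lemma loglog_ge {y : ℕ} (hy : 2 ≤ y) : -1 ≤ Real.log (Real.log y) := by
  have hyr : (2 : ℝ) ≤ y := by exact_mod_cast hy
  have h0 : Real.log 2 ≤ Real.log y := Real.log_le_log (by norm_num) hyr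
  have h2 := Real.log_two_gt_d9
  rw [Real.le_log_iff_exp_le (by linarith)]
  have h4 : Real.exp (-1) ≤ 0.5 := by
    rw [Real.exp_neg]
    have := Real.exp_one_gt_d9
    rw [inv_le_comm₀ (Real.exp_pos 1) (by norm_num)]
    norm_num
    linarith
  linarith

theorem genA (hBW : StBW) (hFr : StFree) {A B : J → ℕ → ℝ} {μ : J → ℝ} (hW : WHyp A B μ)
    {ι : Type} [Fintype ι] [DecidableEq ι] (π : ι → J) (α β w : ι → ℝ)
    (hw : ∀ i, 0 < w i ∧ w i ≤ 1 / 2)
    (hαβ : ∀ i, |α i| * μ (π i) + |β i| * (1 - μ (π i)) ≤ w i)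
    (L : ι → ι → Bool) (hL : ∀ i, L i i = false)
    (Q : Finset ι → Prop) [DecidablePred Q] (K : ℝ) (hK0 : 0 ≤ K)
    (hK : ∀ U S : Finset ι, Disjoint U S → (∀ i ∈ U, ∀ j ∈ U, L i j = L j i) → Q (U ∪ S) →
      ∑ i ∈ UL L U S, w i ≤ K ∧ (S.Nonempty → ∑ i ∈ UL L U S, w i < K)) :
    ∃ z0 : ℕ, ∀ z, z0 ≤ z → ∃ C : ℝ, ∀ y, z < y →
      |∑ d ∈ (Tup ι z y).filter (fun d => Q (univ.filter (fun i => d i ≠ 1))),
        (∏ i, gm (fun p => α i * A (π i) p + β i * B (π i) p) (d i)) * Sym L (fun _ => 1) d| ≤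
        C * (Real.log y) ^ K := by
  classical
  obtain ⟨G, zb, hW1, hW2, hW3⟩ := hW
  set M : ℕ := Fintype.card ι with hM
  set H : ℝ := ∑ i, (|α i| + |β i|) with hH
  have hH0 : 0 ≤ H := sum_nonneg fun i _ => by positivity
  have hHi : ∀ i, |α i| + |β i| ≤ H := fun i =>
    single_le_sum (f := fun i => |α i| + |β i|) (fun i _ => by positivity) (mem_univ i)
  set g : ℝ := H * G with hg
  have hg0 : 0 ≤ g := by positivity
  obtain ⟨C2, E2, hC2, hbw⟩ := hBW g (M : ℝ) hg0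
  obtain ⟨δ, hδ, _, hδK⟩ := Pool.Agent.L7h19.RP.AT.exists_gap w (fun a => (hw a).1) K
  set A' : ℕ := 6 * (M + 2 * E2) with hA
  set ε : ℝ := δ / 2 / (A' * (M : ℝ) ^ 2 + 1) with hε
  have hden : (0 : ℝ) < A' * (M : ℝ) ^ 2 + 1 := by positivity
  have hε0 : 0 < ε := by positivity
  have hεA : (A' : ℝ) * (ε * (M : ℝ) ^ 2) ≤ δ / 2 := by
    have e1 : (A' : ℝ) * (ε * (M : ℝ) ^ 2) =
        δ / 2 * ((A' * (M : ℝ) ^ 2) / (A' * (M : ℝ) ^ 2 + 1)) := by
      rw [hε]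
      field_simp
    rw [e1]
    have e2 : (A' * (M : ℝ) ^ 2) / (A' * (M : ℝ) ^ 2 + 1) ≤ 1 := by
      rw [div_le_one hden]
      linarith
    have e3 : 0 ≤ δ / 2 := by positivity
    calc δ / 2 * ((A' * (M : ℝ) ^ 2) / (A' * (M : ℝ) ^ 2 + 1)) ≤ δ / 2 * 1 :=
          mul_le_mul_of_nonneg_left e2 e3
      _ = δ / 2 := mul_one _
  set B' : ℕ := ⌈2 * (M * g)⌉₊ with hB'
  have hBg : 2 * (M * g) ≤ B' := Nat.le_ceil _
  have hε1 : 0 < ε / (H + 1) := by positivity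
  choose z1 hz1 using fun a : ι => hW3 (π a) (ε / (H + 1)) hε1
  refine ⟨∑ a, z1 a + zb + B' + 2, fun z hz => ?_⟩
  have hz1' : ∀ a, z1 a ≤ z := fun a => (le_sum_nat z1 a).trans (by omega)
  have hzb : zb ≤ z := by omega
  choose C1 hC1 using fun a : ι => hz1 a z (hz1' a)
  have hW1' := hW1 z hzb
  set γ : ι → ℕ → ℝ := fun i p => |α i| * A (π i) p + |β i| * B (π i) p with hγ
  have hγ0 : ∀ i (p : ℕ), p.Prime → z < p → 0 ≤ γ i p := fun i p hp hzp =>
    add_nonneg (mul_nonneg (abs_nonneg _) (hW1' p hp hzp (π i)).1)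
      (mul_nonneg (abs_nonneg _) (hW1' p hp hzp (π i)).2.1)
  have hγg : ∀ i (p : ℕ), p.Prime → z < p → γ i p ≤ g / p := fun i p hp hzp => by
    obtain ⟨h1, h2, h3⟩ := hW1' p hp hzp (π i)
    have h4 := hHi i
    have h5 : |α i| ≤ H := by have := abs_nonneg (β i); linarith
    have h6 : |β i| ≤ H := by have := abs_nonneg (α i); linarith
    calc γ i p ≤ H * A (π i) p + H * B (π i) p :=
          add_le_add (mul_le_mul_of_nonneg_right h5 h1) (mul_le_mul_of_nonneg_right h6 h2)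
      _ = H * (A (π i) p + B (π i) p) := by ring
      _ ≤ H * ((G : ℝ) / p) := mul_le_mul_of_nonneg_left h3 hH0
      _ = g / p := by rw [hg]; ring
  have hfull : ∀ i : ι, ∃ C : ℝ,
      (∀ y, z < y → ∑ d ∈ (PP z y).divisors, gm (γ i) d * hq B' d ≤ C * (Real.log y) ^ (w i)) ∧
      (∀ y V : ℕ, z < y → 2 ≤ V →
        ∑ d ∈ (PP z y).divisors.filter (fun d => d ≤ V), gm (γ i) d * hq B' d ≤
          C * (Real.log V) ^ (w i)) ∧
      (∀ y Y : ℕ, z < y → 1 ≤ Y →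
        ∑ d ∈ (PP z y).divisors.filter (fun d => Y < d), gm (γ i) d * hq B' d ≤
          C * Real.exp (-(Real.log Y / Real.log y)) * (Real.log y) ^ 2) := by
    intro i
    obtain ⟨C0, hC0⟩ := hW2 z hzb (π i)
    have h0 : 0 ≤ w i - (|α i| * μ (π i) + |β i| * (1 - μ (π i))) := by linarith [hαβ i]
    refine full_g (G := g) (C0 := H * |C0| + (w i - (|α i| * μ (π i) + |β i| * (1 - μ (π i)))))
      (hw i).1 (hw i).2 (by omega) (hγ0 i) (hγg i) hg0 (by positivity) fun y hy => ?_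
    obtain ⟨h1, h2⟩ := hC0 y hy
    have h3 := loglog_ge hy
    have e1 : ∑ p ∈ PS z y, γ i p = |α i| * ∑ p ∈ PS z y, A (π i) p +
        |β i| * ∑ p ∈ PS z y, B (π i) p := by
      rw [hγ]
      dsimp only
      rw [sum_add_distrib, mul_sum, mul_sum]
    rw [e1]
    have h4 := mul_le_mul_of_nonneg_left h1 (abs_nonneg (α i))
    have h5 := mul_le_mul_of_nonneg_left h2 (abs_nonneg (β i))
    have h6 : (|α i| + |β i|) * C0 ≤ H * |C0| := by
      have e2 : (|α i| + |β i|) * C0 ≤ (|α i| + |β i|) * |C0| :=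
        mul_le_mul_of_nonneg_left (le_abs_self _) (by positivity)
      exact e2.trans (mul_le_mul_of_nonneg_right (hHi i) (abs_nonneg _))
    nlinarith
  choose C3 hC3 using hfull
  set C : ℝ := 1 + ∑ a, |C3 a| with hC
  set D1 : ℝ := (H + 1) * ∑ a, |C1 a| with hD1
  have hs1 : 0 ≤ ∑ a, |C1 a| := sum_nonneg fun _ _ => abs_nonneg _
  have hD10 : 0 ≤ D1 := by positivity
  have hs3 : 0 ≤ ∑ a, |C3 a| := sum_nonneg fun _ _ => abs_nonneg _
  have hCC3 : ∀ a, C3 a ≤ C := fun a => by have := le_sum_abs C3 a; linarith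
  have hBd : Pool.Agent.L7h19.RP.AT.Bd (fun (i : ι) p => α i * A (π i) p + β i * B (π i) p)
      γ w z B' C := by
    refine ⟨fun a => (hw a).1, fun a => (hw a).2.trans (by norm_num), by omega, by linarith,
      fun a p hp hzp => ?_, fun a y hy => ?_,
      fun a y V hy hV => ?_, fun a y Y hy hY => ?_⟩
    · obtain ⟨h1, h2, _⟩ := hW1' p hp hzp (π a)
      refine (abs_add_le _ _).trans ?_
      rw [abs_mul, abs_mul, abs_of_nonneg h1, abs_of_nonneg h2]
    · refine ((hC3 a).1 y hy).trans ?_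
      exact mul_le_mul_of_nonneg_right (hCC3 a) (Real.rpow_nonneg (Real.log_natCast_nonneg _) _)
    · refine ((hC3 a).2.1 y V hy hV).trans ?_
      exact mul_le_mul_of_nonneg_right (hCC3 a) (Real.rpow_nonneg (Real.log_natCast_nonneg _) _)
    · refine ((hC3 a).2.2 y Y hy hY).trans ?_
      exact mul_le_mul_of_nonneg_right (mul_le_mul_of_nonneg_right (hCC3 a) (Real.exp_pos _).le)
        (by positivity)
  have hHN : HH2 (fun (i : ι) p => α i * A (π i) p + β i * B (π i) p) w L Q K z A' ε D1 δ := by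
    refine ⟨hL, hK0, hK, hδ, hδK, hε0.le, hD10, hεA, ?_⟩
    intro a y r s hy hr hrs hrp
    obtain ⟨h1, h2⟩ := hC1 a y r s hy hr hrs hrp
    have hlog : 0 ≤ Real.log r := Real.log_natCast_nonneg _
    have e1 : ∑ p ∈ PS z y, (α a * A (π a) p + β a * B (π a) p) * (Jr p r * x4 s p) =
        α a * ∑ p ∈ PS z y, A (π a) p * (Jr p r * x4 s p) +
        β a * ∑ p ∈ PS z y, B (π a) p * (Jr p r * x4 s p) := by
      rw [mul_sum, mul_sum, ← sum_add_distrib]
      exact sum_congr rfl fun p _ => by ring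
    rw [e1]
    have h3 : α a * ∑ p ∈ PS z y, A (π a) p * (Jr p r * x4 s p) ≤
        |α a| * (ε / (H + 1) * Real.log r + C1 a) := by
      refine (le_abs_self _).trans ?_
      rw [abs_mul]
      exact mul_le_mul_of_nonneg_left h1 (abs_nonneg _)
    have h4 : β a * ∑ p ∈ PS z y, B (π a) p * (Jr p r * x4 s p) ≤
        |β a| * (ε / (H + 1) * Real.log r + C1 a) := by
      refine (le_abs_self _).trans ?_
      rw [abs_mul]
      exact mul_le_mul_of_nonneg_left h2 (abs_nonneg _)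
    have h5 : ε / (H + 1) * Real.log r + C1 a ≤ ε / (H + 1) * Real.log r + ∑ a, |C1 a| := by
      have := le_sum_abs C1 a
      linarith
    have h6 : 0 ≤ ε / (H + 1) * Real.log r + ∑ a, |C1 a| := by positivity
    have h7 := hHi a
    calc _ ≤ |α a| * (ε / (H + 1) * Real.log r + C1 a) +
          |β a| * (ε / (H + 1) * Real.log r + C1 a) := add_le_add h3 h4
      _ = (|α a| + |β a|) * (ε / (H + 1) * Real.log r + C1 a) := by ring
      _ ≤ (|α a| + |β a|) * (ε / (H + 1) * Real.log r + ∑ a, |C1 a|) :=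
          mul_le_mul_of_nonneg_left h5 (by positivity)
      _ ≤ (H + 1) * (ε / (H + 1) * Real.log r + ∑ a, |C1 a|) :=
          mul_le_mul_of_nonneg_right (by linarith) h6
      _ = _ := by
          rw [hD1]
          field_simp
  obtain ⟨C', hC'⟩ := at_h hFr hBd hC2 hbw hg0 hγg (by
      have h1 : (B' : ℝ) ≤ z := by exact_mod_cast (by omega : B' ≤ z)
      linarith) hBg le_rfl hHN
  exact ⟨C', fun y hy => hC' y hy⟩

end Pool.Agent.L7h19.FT
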