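import Mathlib
import Pool.Agent.L7h19.FT.Ana
import Pool.Agent.L7h19.FT.Stm3

/-!
# Project FT: the hypotheses on the weights for the values of polynomials
-/

set_option autoImplicit false
set_option linter.unusedSectionVars false

namespace Pool.Agent.L7h19.FT

open Finset Polynomial Pool.Agent.W262.RK Pool.Agent.L7h19.RP Pool.Agent.L7h19.IS
open Pool.Agent.L7h19.RP.AT (gm hq BWg)
open Pool.Agent.H474R2.PG (rho)

variable {J : Type} [Fintype J] [DecidableEq J]

/-- is `κ(θ)` a square in `ℚ(θ)`, `f(θ) = 0`? -/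
def Sqr (f κ : ℤ[X]) : Prop :=
  IsSquare (AdjoinRoot.mk (f.map (Int.castRingHom ℚ)) (κ.map (Int.castRingHom ℚ)))

open Classical in
/-- the density of the split primes -/
noncomputable def mu (f κ : ℤ[X]) : ℝ := if Sqr f κ then 1 else 1 / 2

lemma mu_pos (f κ : ℤ[X]) : 0 < mu f κ ∧ mu f κ ≤ 1 := by
  unfold mu
  split_ifs <;> norm_num

lemma abs_Jr (a : ℤ) (n : ℕ) : |Jr a n| ≤ 1 := by
  unfold Jr
  rcases jacobiSym.trichotomy a n with h | h | h <;> rw [h] <;> norm_num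

lemma bw_abs {f κ : ℤ[X]} {c p : ℕ} (hcp : c < p) : |bw f κ 1 c p| ≤ gaw f 1 c p := by
  have hpc : (0 : ℝ) < (p : ℝ) - c := by
    have : (c : ℝ) < p := by exact_mod_cast hcp
    linarith
  unfold bw gaw rho
  rw [abs_mul, abs_of_pos (by positivity : (0 : ℝ) < 1 / ((p : ℝ) - c))]
  refine mul_le_mul_of_nonneg_left ?_ (by positivity)
  refine (abs_sum_le_sum_abs _ _).trans ?_
  refine (sum_le_sum fun ν _ => abs_Jr _ _).trans ?_
  rw [sum_const, nsmul_eq_mul, mul_one]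

lemma gaw_two (f : ℤ[X]) (c p : ℕ) : gaw f 1 c p = 2 * gaw f (1 / 2) c p := by
  unfold gaw
  ring

lemma bw_sq {f κ : ℤ[X]} {c p : ℕ}
    (h : ∀ ν : ℤ, (p : ℤ) ∣ f.eval ν → jacobiSym (κ.eval ν) p = 1) :
    bw f κ 1 c p = gaw f 1 c p := by
  unfold bw gaw rho
  congr 1
  rw [card_eq_sum_ones]
  push_cast
  refine sum_congr rfl fun ν hν => ?_
  unfold Jr
  rw [h _ (mem_filter.1 hν).2]
  norm_num

theorem wh (hU : S_UP2) (hU0 : S_UP02) (hSQ : S_SQ) (f κ : J → ℤ[X])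
    (hf : ∀ j, Irreducible (f j)) (hd : ∀ j, 0 < (f j).natDegree) (hκ : ∀ j, ¬ f j ∣ κ j) (c : ℕ) :
    WHyp (aP f κ c) (bP f κ c) (fun j => mu (f j) (κ j)) := by
  classical
  obtain ⟨K, hK, hsq⟩ := Pool.Agent.W655.RK.sum_inv_sq
  choose Br hBr using fun j : J => Pool.Agent.H474R2.PG.rho_le (f j) (hf j).ne_zero
  choose CM hCM hmer using fun j : J => sum_rho (f j) (hf j) (hd j)
  have h0 : ∀ j, ∃ z0 : ℕ, (Sqr (f j) (κ j) → ∀ p : ℕ, p.Prime → z0 < p → ∀ ν : ℤ,
      (p : ℤ) ∣ (f j).eval ν → jacobiSym ((κ j).eval ν) p = 1) ∧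
      (¬ Sqr (f j) (κ j) → ∀ z : ℕ, z0 ≤ z → ∃ C : ℝ, ∀ y : ℕ, z < y →
        |∑ p ∈ PS z y, bw (f j) (κ j) 1 c p| ≤ C) := by
    intro j
    by_cases hs : Sqr (f j) (κ j)
    · obtain ⟨z0, h⟩ := hSQ (f j) (κ j) (hf j) (hd j) (hκ j) hs
      exact ⟨z0, fun _ => h, fun h' => absurd hs h'⟩
    · obtain ⟨z0, h⟩ := hU0 (f j) (κ j) c (hf j) (hd j) (hκ j) hs
      exact ⟨z0, fun h' => absurd h' hs, fun _ => h⟩
  choose zq hzq using h0
  set zb : ℕ := 2 * c + 2 + ∑ j, Br j + ∑ j, zq j with hzb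
  set G : ℕ := 2 * ∑ j, (f j).natDegree with hG
  have hg : ∀ (z : ℕ), zb ≤ z → ∀ p : ℕ, p.Prime → z < p → ∀ j,
      0 ≤ gaw (f j) 1 c p ∧ gaw (f j) 1 c p ≤ (G : ℝ) / p ∧
      gaw (f j) 1 c p ≤ (rho (f j) p : ℝ) / p +
        2 * (c * (f j).natDegree) * (1 / (p : ℝ) ^ 2) := by
    intro z hz p hp hzp j
    have hr := hBr j p hp (by have := le_sum_nat Br j; omega)
    obtain ⟨e1, e2, e3⟩ := gaw_bd (f := f j) (w := 1 / 2) (c := c) (by norm_num) le_rfl
      (by omega : 2 * c + 2 ≤ p) hr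
    have hp0 : (0 : ℝ) < p := by exact_mod_cast hp.pos
    have hdG : 2 * ((f j).natDegree : ℝ) ≤ (G : ℝ) := by
      have := le_sum_nat (fun j => (f j).natDegree) j
      rw [hG]
      push_cast
      have h' : ((f j).natDegree : ℝ) ≤ ∑ j, ((f j).natDegree : ℝ) := by exact_mod_cast this
      linarith
    rw [gaw_two]
    refine ⟨by linarith, ?_, by linarith⟩
    calc 2 * gaw (f j) (1 / 2) c p ≤ 2 * (((f j).natDegree : ℝ) / p) := by linarith
      _ = (2 * ((f j).natDegree : ℝ)) / p := by ring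
      _ ≤ _ := div_le_div_of_nonneg_right hdG hp0.le
  have hgs : ∀ (z : ℕ), zb ≤ z → ∀ j, ∃ C : ℝ, 0 ≤ C ∧ ∀ y : ℕ, 2 ≤ y →
      ∑ p ∈ PS z y, gaw (f j) 1 c p ≤ Real.log (Real.log y) + C := by
    intro z hz j
    refine ⟨CM j + 2 * (c * (f j).natDegree) * K, by
      have := hCM j
      positivity, fun y hy => ?_⟩
    calc ∑ p ∈ PS z y, gaw (f j) 1 c p ≤ ∑ p ∈ PS z y, ((rho (f j) p : ℝ) / p +
        2 * (c * (f j).natDegree) * (1 / (p : ℝ) ^ 2)) :=
          sum_le_sum fun p hp => (hg z hz p (PSm hp).1 (PSm hp).2 j).2.2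
      _ = ∑ p ∈ PS z y, (rho (f j) p : ℝ) / p +
          2 * (c * (f j).natDegree) * ∑ p ∈ PS z y, 1 / (p : ℝ) ^ 2 := by
          rw [sum_add_distrib, mul_sum]
      _ ≤ (Real.log (Real.log y) + CM j) + 2 * (c * (f j).natDegree) * K := by
          refine add_le_add (hmer j z y (by omega) hy) (mul_le_mul_of_nonneg_left (hsq _)
            (by positivity))
      _ = _ := by ring
  refine ⟨G, zb, fun z hz p hp hzp j => ?_, fun z hz j => ?_, fun j ε hε => ?_⟩
  · obtain ⟨e1, e2, _⟩ := hg z hz p hp hzp j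
    have e3 := abs_le.1 (bw_abs (f := f j) (κ := κ j) (c := c) (p := p) (by omega))
    unfold aP bP
    refine ⟨by linarith [e3.1], by linarith [e3.2], ?_⟩
    calc (gaw (f j) 1 c p + bw (f j) (κ j) 1 c p) / 2 +
          (gaw (f j) 1 c p - bw (f j) (κ j) 1 c p) / 2 = gaw (f j) 1 c p := by ring
      _ ≤ _ := e2
  · obtain ⟨C0, hC0, hC⟩ := hgs z hz j
    have hzj : zq j ≤ z := by have := le_sum_nat zq j; omega
    by_cases hs : Sqr (f j) (κ j)
    · have hmu : mu (f j) (κ j) = 1 := if_pos hs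
      refine ⟨C0, fun y hy => ?_⟩
      have e1 : ∀ p ∈ PS z y, bw (f j) (κ j) 1 c p = gaw (f j) 1 c p := fun p hp =>
        bw_sq ((hzq j).1 hs p (PSm hp).1 (by have := (PSm hp).2; omega))
      unfold aP bP
      dsimp only
      rw [hmu]
      constructor
      · refine le_trans (le_of_eq ?_) ((hC y hy).trans (by linarith))
        refine sum_congr rfl fun p hp => ?_
        rw [e1 p hp]
        ring
      · have e2 : ∑ p ∈ PS z y, (gaw (f j) 1 c p - bw (f j) (κ j) 1 c p) / 2 = 0 :=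
          sum_eq_zero fun p hp => by rw [e1 p hp]; ring
        rw [e2]
        linarith
    · have hmu : mu (f j) (κ j) = 1 / 2 := if_neg hs
      obtain ⟨C1, hC1⟩ := (hzq j).2 hs z hzj
      refine ⟨(C0 + |C1|) / 2, fun y hy => ?_⟩
      have e1 : |∑ p ∈ PS z y, bw (f j) (κ j) 1 c p| ≤ |C1| := by
        rcases Nat.lt_or_ge z y with h | h
        · exact (hC1 y h).trans (le_abs_self _)
        · have : PS z y = ∅ := by
            ext p
            simp only [notMem_empty, iff_false]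
            intro hp
            have := mem_PS.1 hp
            omega
          rw [this, sum_empty, abs_zero]
          exact abs_nonneg _
      have e2 := abs_le.1 e1
      have e3 := hC y hy
      unfold aP bP
      dsimp only
      rw [hmu, ← sum_div, ← sum_div, sum_add_distrib, sum_sub_distrib]
      constructor
      · linarith [e2.2]
      · linarith [e2.1]
  · obtain ⟨z1, h1⟩ := hU (f j) (κ j) ε c (hf j) (hd j) (hκ j) hε
    obtain ⟨z2, h2⟩ := hU (f j) 1 ε c (hf j) (hd j) (not_dvd_one (hf j)) hε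
    refine ⟨z1 + z2, fun z hz => ?_⟩
    obtain ⟨C1, hC1⟩ := h1 z (by omega)
    obtain ⟨C2, hC2⟩ := h2 z (by omega)
    refine ⟨|C1| + |C2|, fun y r t hy hr hrs hrp => ?_⟩
    have e1 := hC1 y r t hy hr hrs hrp
    have e2 := hC2 y r t hy hr hrs hrp
    have e3 : ∑ p ∈ PS z y, bw (f j) 1 1 c p * (Jr p r * x4 t p) =
        ∑ p ∈ PS z y, gaw (f j) 1 c p * (Jr p r * x4 t p) :=
      sum_congr rfl fun p _ => by rw [bw_one]
    rw [e3] at e2
    have ha := le_abs_self C1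
    have hb := le_abs_self C2
    have ha0 := abs_nonneg C1
    have hb0 := abs_nonneg C2
    unfold aP bP
    have e4 : ∑ p ∈ PS z y, (gaw (f j) 1 c p + bw (f j) (κ j) 1 c p) / 2 * (Jr p r * x4 t p) =
        (∑ p ∈ PS z y, gaw (f j) 1 c p * (Jr p r * x4 t p) +
          ∑ p ∈ PS z y, bw (f j) (κ j) 1 c p * (Jr p r * x4 t p)) / 2 := by
      rw [← sum_add_distrib, sum_div]
      exact sum_congr rfl fun p _ => by ring
    have e5 : ∑ p ∈ PS z y, (gaw (f j) 1 c p - bw (f j) (κ j) 1 c p) / 2 * (Jr p r * x4 t p) =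
        (∑ p ∈ PS z y, gaw (f j) 1 c p * (Jr p r * x4 t p) -
          ∑ p ∈ PS z y, bw (f j) (κ j) 1 c p * (Jr p r * x4 t p)) / 2 := by
      rw [← sum_sub_distrib, sum_div]
      exact sum_congr rfl fun p _ => by ring
    rw [e4, e5]
    have f1 := abs_le.1 e1
    have f2 := abs_le.1 e2
    constructor
    · rw [abs_le]
      constructor <;> linarith [f1.1, f1.2, f2.1, f2.2]
    · rw [abs_le]
      constructor <;> linarith [f1.1, f1.2, f2.1, f2.2]

end Pool.Agent.L7h19.FT
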