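import Mathlib
import Pool.Agent.L7h19.IS.Cat2
import Pool.Agent.L7h19.FT.Stm

/-!
# Project FT: the combinatorial lemma for `FK`
-/

set_option autoImplicit false
set_option linter.unusedSectionVars false

namespace Pool.Agent.L7h19.FT

open Finset Pool.Agent.L7h19.IS

variable {J : Type} [Fintype J] [DecidableEq J] {r : ℕ}

/-- the means of the weights `bF` -/
noncomputable def wF (cls : J → Fin 3) (c : Fin 3) (μ : J → ℝ) (a b r : ℕ) (i : LabF J r) : ℝ :=
  if cls i.1 = c then ((if i.2.1 = 0 then 1 - μ i.1 else 0) + μ i.1 / 2 ^ a) / 2 else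
    1 / 2 ^ b / 2

/-- the total weight of the type `j` -/
noncomputable def tF (cls : J → Fin 3) (c : Fin 3) (μ : J → ℝ) (a b r : ℕ) (τ : Bool) (j : J) : ℝ :=
  if cls j = c then (1 - μ j) + (if τ = true then 2 ^ r else 1) * (μ j / 2 ^ a) else
    (if τ = true then 1 else 2 ^ r) * (1 / 2 ^ b)

lemma wF_pos (cls : J → Fin 3) (c : Fin 3) {μ : J → ℝ} (hμ : ∀ j, 0 < μ j ∧ μ j ≤ 1) (a b r : ℕ)
    (i : LabF J r) : 0 < wF cls c μ a b r i ∧ wF cls c μ a b r i ≤ 1 / 2 := by
  obtain ⟨h1, h2⟩ := hμ i.1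
  have ha : (1 : ℝ) ≤ 2 ^ a := one_le_pow₀ (by norm_num)
  have hb : (1 : ℝ) ≤ 2 ^ b := one_le_pow₀ (by norm_num)
  have h3 : 0 < μ i.1 / 2 ^ a := by positivity
  have h4 : μ i.1 / 2 ^ a ≤ μ i.1 := div_le_self h1.le ha
  have h5 : (1 : ℝ) / 2 ^ b ≤ 1 := by
    rw [div_le_one (by positivity)]
    exact hb
  unfold wF
  split_ifs
  · constructor <;> linarith
  · constructor <;> linarith
  · constructor
    · positivity
    · linarith

lemma LF_symm (cls : J → Fin 3) (c : Fin 3) (i l : LabF J r) :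
    (LF cls c r i l = LF cls c r l i) ↔
      ((cls i.1 = c ↔ cls l.1 ≠ c) → i.2.1 ⬝ᵥ l.2.1 = 0) := by
  unfold LF
  rw [dotProduct_comm l.2.1 i.2.1]
  by_cases h1 : cls i.1 = c <;> by_cases h2 : cls l.1 = c <;>
    by_cases h3 : i.2.1 ⬝ᵥ l.2.1 = 0 <;> simp [h1, h2, h3]

lemma sum_h (cls : J → Fin 3) (c : Fin 3) (μ : J → ℝ) (a b r : ℕ) (τ : Bool) (j : J) :
    ∑ x : (Fin r → ZMod 2) × Bool, (if (cls j = c ↔ τ = true) ∨ x.1 = 0 then
      wF cls c μ a b r (j, x) else 0) = tF cls c μ a b r τ j := by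
  have hcV : (Fintype.card (Fin r → ZMod 2) : ℝ) = 2 ^ r := by
    simp [ZMod.card]
  rw [Fintype.sum_prod_type]
  simp only [Fintype.sum_bool]
  unfold wF tF
  dsimp only
  by_cases h1 : cls j = c <;> cases τ
  · simp only [h1, true_iff, if_true, Bool.false_eq_true, false_or, if_false]
    rw [Finset.sum_eq_single 0]
    · simp only [if_true]
      ring
    · intro x _ hx
      simp [hx]
    · intro h
      exact absurd (mem_univ _) h
  · simp only [h1, true_or, if_true, iff_self]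
    rw [show (∑ x : Fin r → ZMod 2, (((if x = 0 then 1 - μ j else 0) + μ j / 2 ^ a) / 2 +
      ((if x = 0 then 1 - μ j else 0) + μ j / 2 ^ a) / 2)) =
      ∑ x : Fin r → ZMod 2, ((if x = 0 then 1 - μ j else 0) + μ j / 2 ^ a) from
      sum_congr rfl fun x _ => by ring]
    rw [sum_add_distrib, sum_ite_eq' univ (0 : Fin r → ZMod 2) (fun _ => 1 - μ j), sum_const,
      card_univ, nsmul_eq_mul, hcV, if_pos (mem_univ _)]
  · simp only [h1, if_false, Bool.false_eq_true, iff_self, true_or, if_true]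
    rw [sum_const, card_univ, nsmul_eq_mul, hcV]
    ring
  · simp only [h1, if_false, false_iff, not_true_eq_false, false_or, if_true]
    rw [Finset.sum_eq_single 0]
    · simp only [if_true]
      ring
    · intro x _ hx
      simp [hx]
    · intro h
      exact absurd (mem_univ _) h

/-- **the combinatorial condition** -/
lemma combF (cls : J → Fin 3) (c : Fin 3) {μ : J → ℝ} (hμ : ∀ j, 0 < μ j ∧ μ j ≤ 1) (a b : ℕ)
    (τ : Bool) (hS : ∑ j, tF cls c μ a b r τ j ≤ Fintype.card J)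
    (U S : Finset (LabF J r)) (hUS : Disjoint U S)
    (hU : ∀ i ∈ U, ∀ l ∈ U, LF cls c r i l = LF cls c r l i) (hQ : QF cls c τ r (U ∪ S)) :
    (∑ i ∈ UL (LF cls c r) U S, wF cls c μ a b r i) ≤ Fintype.card J ∧
      (S.Nonempty → (∑ i ∈ UL (LF cls c r) U S, wF cls c μ a b r i) < Fintype.card J) := by
  classical
  set W := UL (LF cls c r) U S with hW
  have hWm : ∀ e, e ∈ W ↔ e ∈ U ∧ ∀ k ∈ S, LF cls c r e k = LF cls c r k e := fun e => by
    rw [hW]
    unfold UL
    simp only [mem_filter]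
  set P : Finset (LabF J r) := univ.filter (fun i => (cls i.1 = c ↔ τ = true) ∨ i.2.1 = 0) with hP
  have hPm : ∀ i, i ∈ P ↔ ((cls i.1 = c ↔ τ = true) ∨ i.2.1 = 0) := fun i => by rw [hP]; simp
  have hun : ∀ e ∈ W, ∀ s ∈ U ∪ S, LF cls c r e s = LF cls c r s e := by
    intro e he s hs
    rcases mem_union.1 hs with h | h
    · exact hU e ((hWm e).1 he).1 s h
    · exact ((hWm e).1 he).2 s h
  have hWP : W ⊆ P := by
    intro i hi
    rw [hPm]
    by_contra h
    push Not at h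
    obtain ⟨h1, h2⟩ := h
    obtain ⟨l, hl, hl1, hl2⟩ := hQ i.2.1 h2
    have h3 := (LF_symm cls c i l).1 (hun i hi l hl)
    apply hl2
    apply h3
    tauto
  have hpos : ∀ i ∈ P, 0 < wF cls c μ a b r i := fun i _ => (wF_pos cls c hμ a b r i).1
  have hsumP : ∑ i ∈ P, wF cls c μ a b r i ≤ Fintype.card J := by
    refine le_trans (le_of_eq ?_) hS
    rw [hP, sum_filter, Fintype.sum_prod_type]
    exact sum_congr rfl fun j _ => sum_h cls c μ a b r τ j
  refine ⟨(sum_le_sum_of_subset_of_nonneg hWP fun i hi _ => (hpos i hi).le).trans hsumP, ?_⟩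
  rintro ⟨s, hs⟩
  refine lt_of_lt_of_le ?_ hsumP
  have hsW : s ∉ W := fun h => disjoint_left.1 hUS ((hWm s).1 h).1 hs
  have hex : ∃ i ∈ P, i ∉ W := by
    by_cases hsP : s ∈ P
    · exact ⟨s, hsP, hsW⟩
    · have h1 := hsP
      rw [hPm] at h1
      push Not at h1
      obtain ⟨h1, h2⟩ := h1
      obtain ⟨l, hl, hl1, hl2⟩ := hQ s.2.1 h2
      refine ⟨l, (hPm l).2 (Or.inl hl1), fun hlW => ?_⟩
      have h3 := (LF_symm cls c l s).1 (hun l hlW s (mem_union_right _ hs))
      apply hl2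
      rw [dotProduct_comm]
      apply h3
      tauto
  obtain ⟨i, hi, hiW⟩ := hex
  exact sum_lt_sum_of_subset hWP hi hiW (hpos i hi) fun j hj _ => (hpos j hj).le

end Pool.Agent.L7h19.FT
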