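import Mathlib
import Pool.Agent.L7h19.FT.Ana
import Pool.Agent.L7h19.FT.CombF
import Pool.Agent.L7h19.IS.Avg

/-!
# Project FT: the average of the majorant
-/

set_option autoImplicit false
set_option linter.unusedSectionVars false

namespace Pool.Agent.L7h19.FT

open Finset Polynomial Pool.Agent.W262.RK Pool.Agent.L7h19.RP Pool.Agent.L7h19.IS
open Pool.Agent.L7h19.RP.AT (gm hq BWg)
open Pool.Agent.L7h19.RH (Q0)

variable {J : Type} [Fintype J] [DecidableEq J] {z y : ℕ}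

lemma Tup_prime {s : J → ℕ} (hs : s ∈ Tup J z y) {j : J} {p : ℕ} (hp : p ∈ (s j).primeFactors) :
    p.Prime ∧ z < p := by
  have hpp := Nat.prime_of_mem_primeFactors hp
  exact ⟨hpp, (dv_prime ((AT.mem_Tup'.1 hs).1 j) hpp (Nat.dvd_of_mem_primeFactors hp)).1⟩

lemma WE_nonneg {A B : J → ℕ → ℝ}
    (h : ∀ p : ℕ, p.Prime → z < p → ∀ j, 0 ≤ A j p ∧ 0 ≤ B j p) {s : J → ℕ} (hs : s ∈ Tup J z y)
    (E : Finset ℕ) : 0 ≤ WE A B s E := by
  unfold WE
  refine prod_nonneg fun j _ => prod_nonneg fun p hp => ?_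
  obtain ⟨h1, h2⟩ := Tup_prime hs hp
  obtain ⟨h3, h4⟩ := h p h1 h2 j
  split_ifs
  · exact h4
  · exact h3

lemma avE_mono {A B : J → ℕ → ℝ}
    (h : ∀ p : ℕ, p.Prime → z < p → ∀ j, 0 ≤ A j p ∧ 0 ≤ B j p) {s : J → ℕ} (hs : s ∈ Tup J z y)
    {Φ Ψ : Finset ℕ → ℝ} (hΦ : ∀ E, Φ E ≤ Ψ E) : avE A B Φ s ≤ avE A B Ψ s := by
  unfold avE
  exact sum_le_sum fun E _ => mul_le_mul_of_nonneg_right (hΦ E) (WE_nonneg h hs E)

lemma avE_add (A B : J → ℕ → ℝ) (Φ Ψ : Finset ℕ → ℝ) (s : J → ℕ) :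
    avE A B (fun E => Φ E + Ψ E) s = avE A B Φ s + avE A B Ψ s := by
  unfold avE
  rw [← sum_add_distrib]
  exact sum_congr rfl fun E _ => by ring

lemma avE_smul (A B : J → ℕ → ℝ) (a : ℝ) (Φ : Finset ℕ → ℝ) (s : J → ℕ) :
    avE A B (fun E => a * Φ E) s = a * avE A B Φ s := by
  unfold avE
  rw [mul_sum]
  exact sum_congr rfl fun E _ => by ring

lemma avE_sum {κ : Type} (T : Finset κ) (A B : J → ℕ → ℝ) (Φ : κ → Finset ℕ → ℝ) (s : J → ℕ) :
    avE A B (fun E => ∑ c ∈ T, Φ c E) s = ∑ c ∈ T, avE A B (Φ c) s := by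
  unfold avE
  rw [sum_comm]
  exact sum_congr rfl fun E _ => by rw [sum_mul]

/-- the sum of the expansions of `FK` -/
theorem majF (hBW : StBW) (hFr : StFree) (hEx : S_EXF) {A B : J → ℕ → ℝ} {μ : J → ℝ}
    (hW : WHyp A B μ) (hμ : ∀ j, 0 < μ j ∧ μ j ≤ 1) (cls : J → Fin 3) (c : Fin 3) (τ : Bool)
    (a b r : ℕ) (hS : ∑ j, tF cls c μ a b r τ j ≤ Fintype.card J) :
    ∃ z0 : ℕ, ∀ z, z0 ≤ z → ∃ C : ℝ, ∀ y, z < y →
      ∑ s ∈ Tup J z y, avE A B (fun E => FK τ a b r (mc cls s) E c) s ≤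
        C * (Real.log y) ^ (Fintype.card J) := by
  classical
  obtain ⟨z0, hz0⟩ := genA hBW hFr hW (ι := LabF J r) Prod.fst
    (fun i => if cls i.1 = c then 1 / 2 ^ a / 2 else 1 / 2 ^ b / 2)
    (fun i => if cls i.1 = c then (if i.2.1 = 0 then 1 / 2 else 0) else 1 / 2 ^ b / 2)
    (wF cls c μ a b r) (wF_pos cls c hμ a b r) (fun i => by
      obtain ⟨h1, h2⟩ := hμ i.1
      have ha : (0 : ℝ) < 2 ^ a := by positivity
      have hb : (0 : ℝ) < 2 ^ b := by positivity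
      unfold wF
      split_ifs
      · rw [abs_of_nonneg (by positivity), abs_of_nonneg (by norm_num)]
        apply le_of_eq
        ring
      · rw [abs_of_nonneg (by positivity), abs_zero]
        apply le_of_eq
        ring
      · rw [abs_of_nonneg (by positivity)]
        apply le_of_eq
        ring)
    (LF cls c r) (fun i => by
      unfold LF
      by_cases h : cls i.1 = c <;> simp [h]) (QF cls c τ r) ((Fintype.card J : ℕ) : ℝ)
    (Nat.cast_nonneg _) (fun U S hUS hU hQ => combF cls c hμ a b τ hS U S hUS hU hQ)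
  refine ⟨z0 + 2, fun z hz => ?_⟩
  obtain ⟨C, hC⟩ := hz0 z (by omega)
  refine ⟨C, fun y hy => ?_⟩
  rw [hEx J cls c A B τ a b r z y (by omega)]
  refine (le_trans (le_of_eq ?_) (le_abs_self _)).trans ((hC y hy).trans (le_of_eq ?_))
  · refine sum_congr rfl fun d _ => ?_
    congr 1
    refine prod_congr rfl fun i _ => ?_
    congr 1
    funext p
    unfold bF
    split_ifs <;> ring
  · rw [Real.rpow_natCast]

/-- **combT** (helper72) -/
def S_CT : Prop := ∀ (J : Type) [Fintype J] [DecidableEq J] (cls : J → Fin 3) (k : ℕ)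
  (U S : Finset (LabT J k)), Disjoint U S →
  (∀ i ∈ U, ∀ l ∈ U, LT cls k i l = LT cls k l i) → QT cls k (U ∪ S) →
  (∑ _i ∈ UL (LT cls k) U S, (1 / 2 ^ k : ℝ)) ≤ Fintype.card J ∧
    (S.Nonempty → (∑ _i ∈ UL (LT cls k) U S, (1 / 2 ^ k : ℝ)) < Fintype.card J)

/-- the sum of the expansions of `TK` -/
theorem majT (hBW : StBW) (hFr : StFree) (hEx : S_EXT) (hCT : S_CT) {A B : J → ℕ → ℝ} {μ : J → ℝ}
    (hW : WHyp A B μ) (cls : J → Fin 3) (k : ℕ) (hk : 1 ≤ k) :
    ∃ z0 : ℕ, ∀ z, z0 ≤ z → ∃ C : ℝ, ∀ y, z < y →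
      ∑ s ∈ Tup J z y, avE A B (fun E => TK k (mc cls s) E) s ≤
        C * (Real.log y) ^ (Fintype.card J) := by
  classical
  have h2k : (2 : ℝ) ≤ 2 ^ k := by
    calc (2 : ℝ) = 2 ^ 1 := by norm_num
      _ ≤ _ := pow_le_pow_right₀ (by norm_num) hk
  obtain ⟨z0, hz0⟩ := genA hBW hFr hW (ι := LabT J k) Prod.fst
    (fun _ => 1 / 2 ^ k)
    (fun i => (if i.2.1 ⬝ᵥ i.2.2 = 0 then 1 else -1) / 2 ^ k)
    (fun _ => 1 / 2 ^ k) (fun i => ⟨by positivity, by
      rw [div_le_div_iff₀ (by positivity) (by norm_num)]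
      linarith⟩) (fun i => by
      have e1 : |(if i.2.1 ⬝ᵥ i.2.2 = 0 then 1 else -1 : ℝ) / 2 ^ k| = 1 / 2 ^ k := by
        rw [abs_div, abs_of_pos (by positivity : (0 : ℝ) < 2 ^ k)]
        split_ifs <;> simp
      rw [e1, abs_of_nonneg (by positivity)]
      apply le_of_eq
      ring)
    (LT cls k) (fun i => by
      unfold LT
      simp) (QT cls k) ((Fintype.card J : ℕ) : ℝ)
    (Nat.cast_nonneg _) (fun U S hUS hU hQ => hCT J cls k U S hUS hU hQ)
  refine ⟨z0 + 2, fun z hz => ?_⟩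
  obtain ⟨C, hC⟩ := hz0 z (by omega)
  refine ⟨C, fun y hy => ?_⟩
  rw [hEx J cls A B k z y (by omega)]
  refine (le_trans (le_of_eq ?_) (le_abs_self _)).trans ((hC y hy).trans (le_of_eq ?_))
  · refine sum_congr rfl fun d _ => ?_
    congr 1
    refine prod_congr rfl fun i _ => ?_
    congr 1
    funext p
    unfold bT
    ring
  · rw [Real.rpow_natCast]

lemma sum_tF_false (cls : J → Fin 3) (c : Fin 3) (μ : J → ℝ) (k : ℕ) :
    ∑ j, tF cls c μ 0 k k false j ≤ Fintype.card J := by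
  have h1 : ∀ j, tF cls c μ 0 k k false j = 1 := by
    intro j
    have h2 : (2 : ℝ) ^ k ≠ 0 := by positivity
    unfold tF
    rw [if_neg Bool.false_ne_true, if_neg Bool.false_ne_true, pow_zero]
    split_ifs
    · ring
    · field_simp
  rw [sum_congr rfl fun j _ => h1 j, sum_const, card_univ, nsmul_eq_mul, mul_one]

lemma sum_tF_true (cls : J → Fin 3) (c : Fin 3) (μ : J → ℝ) (k : ℕ) :
    ∑ j, tF cls c μ k 0 k true j ≤ Fintype.card J := by
  have h1 : ∀ j, tF cls c μ k 0 k true j = 1 := by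
    intro j
    have h2 : (2 : ℝ) ^ k ≠ 0 := by positivity
    unfold tF
    rw [if_pos rfl, if_pos rfl, pow_zero]
    split_ifs
    · field_simp
      ring
    · ring
  rw [sum_congr rfl fun j _ => h1 j, sum_const, card_univ, nsmul_eq_mul, mul_one]

lemma sum_tF_G (cls : J → Fin 3) (c : Fin 3) (μ : J → ℝ) (k : ℕ)
    (h : 2 ^ k * ∑ j ∈ univ.filter (fun j => cls j = c), μ j ≤
      ((univ.filter (fun j => cls j ≠ c)).card : ℝ)) :
    ∑ j, tF cls c μ 0 k k true j ≤ Fintype.card J := by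
  classical
  have h2 : (0 : ℝ) < 2 ^ k := by positivity
  have h2' : (1 : ℝ) ≤ 2 ^ k := one_le_pow₀ (by norm_num)
  have e1 : ∑ j, tF cls c μ 0 k k true j =
      ∑ j ∈ univ.filter (fun j => cls j = c), (1 + (2 ^ k - 1) * μ j) +
      ∑ j ∈ univ.filter (fun j => cls j ≠ c), (1 / 2 ^ k : ℝ) := by
    rw [← sum_filter_add_sum_filter_not univ (fun j => cls j = c)]
    refine congrArg₂ _ (sum_congr rfl fun j hj => ?_) (sum_congr rfl fun j hj => ?_)
    · unfold tF
      rw [if_pos (mem_filter.1 hj).2, if_pos rfl, pow_zero]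
      ring
    · unfold tF
      rw [if_neg (mem_filter.1 hj).2, if_pos rfl, one_mul]
  have e2 : (Fintype.card J : ℝ) = ((univ.filter (fun j => cls j = c)).card : ℝ) +
      ((univ.filter (fun j => cls j ≠ c)).card : ℝ) := by
    rw [← card_univ, ← card_filter_add_card_filter_not (s := univ) (fun j => cls j = c)]
    push_cast
    rfl
  rw [e1, e2, sum_add_distrib, ← mul_sum, sum_const, sum_const, nsmul_eq_mul, nsmul_eq_mul, mul_one]
  set S : ℝ := ∑ j ∈ univ.filter (fun j => cls j = c), μ j with hS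
  set n : ℝ := ((univ.filter (fun j => cls j ≠ c)).card : ℝ) with hn
  have h3 : (2 ^ k - 1) * S ≤ (2 ^ k - 1) * (n / 2 ^ k) := by
    refine mul_le_mul_of_nonneg_left ?_ (by linarith)
    rw [le_div_iff₀ h2]
    linarith
  have h4 : (2 ^ k - 1) * (n / 2 ^ k) + n * (1 / 2 ^ k) = n := by
    field_simp
    ring
  linarith

/-- **the average of the majorant** -/
theorem avgF (hBW : StBW) (hFr : StFree) (hT : S_EXT) (hF : S_EXF) (hCT : S_CT) (hLA : S_LAF)
    {A B : J → ℕ → ℝ} {μ : J → ℝ}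
    (hW : WHyp A B μ) (hμ : ∀ j, 0 < μ j ∧ μ j ≤ 1) (cls : J → Fin 3) (k : ℕ) (hk : 1 ≤ k)
    (G : Finset (Fin 3)) (hG : ∀ c ∈ G, 2 ^ k * ∑ j ∈ univ.filter (fun j => cls j = c), μ j ≤
      ((univ.filter (fun j => cls j ≠ c)).card : ℝ)) :
    ∃ z0 : ℕ, ∀ z, z0 ≤ z → ∃ C : ℝ, ∀ y, z < y →
      ∑ s ∈ Tup J z y, avE A B (fun E => gF G (mc cls s) E ^ k) s ≤
        C * (Real.log y) ^ (Fintype.card J) := by
  classical
  obtain ⟨zt, ht⟩ := majT hBW hFr hT hCT hW cls k hk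
  obtain ⟨zo, ho⟩ := majF hBW hFr hF hW hμ cls 0 true 0 0 0 (by
    have h1 : ∀ j, tF cls 0 μ 0 0 0 true j = 1 := by
      intro j
      unfold tF
      split_ifs <;> norm_num
    rw [sum_congr rfl fun j _ => h1 j, sum_const, card_univ, nsmul_eq_mul, mul_one])
  choose z1 h1 using fun c : Fin 3 =>
    majF hBW hFr hF hW hμ cls c false 0 k k (sum_tF_false cls c μ k)
  choose z2 h2 using fun c : Fin 3 =>
    majF hBW hFr hF hW hμ cls c true k 0 k (sum_tF_true cls c μ k)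
  have h3 : ∀ c : Fin 3, ∃ z3 : ℕ, c ∈ G → ∀ z, z3 ≤ z → ∃ C : ℝ, ∀ y, z < y →
      ∑ s ∈ Tup J z y, avE A B (fun E => FK true 0 k k (mc cls s) E c) s ≤
        C * (Real.log y) ^ (Fintype.card J) := by
    intro c
    by_cases hc : c ∈ G
    · obtain ⟨z3, h3⟩ := majF hBW hFr hF hW hμ cls c true 0 k k (sum_tF_G cls c μ k (hG c hc))
      exact ⟨z3, fun _ => h3⟩
    · exact ⟨0, fun h => absurd h hc⟩
  choose z3 h3 using h3
  obtain ⟨Gb, zb, hW1, _, _⟩ := hW
  refine ⟨zt + zo + ∑ c, z1 c + ∑ c, z2 c + ∑ c, z3 c + zb + 2, fun z hz => ?_⟩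
  have hz1 : ∀ c, z1 c ≤ z := fun c => (le_sum_nat z1 c).trans (by omega)
  have hz2 : ∀ c, z2 c ≤ z := fun c => (le_sum_nat z2 c).trans (by omega)
  have hz3 : ∀ c, z3 c ≤ z := fun c => (le_sum_nat z3 c).trans (by omega)
  obtain ⟨Ct, hCt⟩ := ht z (by omega)
  obtain ⟨Co, hCo⟩ := ho z (by omega)
  choose C1 hC1 using fun c => h1 c z (hz1 c)
  choose C2 hC2 using fun c => h2 c z (hz2 c)
  have h3' : ∀ c : Fin 3, ∃ C : ℝ, c ∈ G → ∀ y, z < y →
      ∑ s ∈ Tup J z y, avE A B (fun E => FK true 0 k k (mc cls s) E c) s ≤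
        C * (Real.log y) ^ (Fintype.card J) := by
    intro c
    by_cases hc : c ∈ G
    · obtain ⟨C, hC⟩ := h3 c hc z (hz3 c)
      exact ⟨C, fun _ => hC⟩
    · exact ⟨0, fun h => absurd h hc⟩
  choose C3 hC3 using h3'
  set M : ℝ := 4 ^ ((k + 2) ^ 2) with hM
  have hM0 : 0 ≤ M := by positivity
  refine ⟨M * (Co + Ct + ∑ c ∈ G, C3 c +
    ∑ c ∈ univ.filter (fun c => c ∉ G), (C1 c + C2 c)), fun y hy => ?_⟩
  have hAB : ∀ p : ℕ, p.Prime → z < p → ∀ j, 0 ≤ A j p ∧ 0 ≤ B j p := fun p hp hzp j =>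
    ⟨(hW1 z (by omega) p hp hzp j).1, (hW1 z (by omega) p hp hzp j).2.1⟩
  have h4 : ∀ s ∈ Tup J z y, avE A B (fun E => gF G (mc cls s) E ^ k) s ≤
      M * (avE A B (fun E => FK true 0 0 0 (mc cls s) E 0) s +
        avE A B (fun E => TK k (mc cls s) E) s +
        ∑ c ∈ G, avE A B (fun E => FK true 0 k k (mc cls s) E c) s +
        ∑ c ∈ univ.filter (fun c => c ∉ G), (avE A B (fun E => FK false 0 k k (mc cls s) E c) s +
          avE A B (fun E => FK true k 0 k (mc cls s) E c) s)) := by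
    intro s hs
    have hok : Ok (mc cls s) := by
      have h5 : Mt (mc cls s) = ∏ j, s j := by
        unfold Mt mc
        exact prod_fiberwise univ cls s
      unfold Ok
      rw [h5]
      refine ⟨?_, Pool.Agent.L7h19.IS.tup_sqf hs⟩
      rw [← Nat.not_even_iff_odd, even_iff_two_dvd]
      intro h6
      have h7 : (2 : ℕ).Prime := Nat.prime_two
      obtain ⟨j, _, hj⟩ := (h7.prime.dvd_finsetProd_iff _).1 h6
      have h8 := (dv_prime ((AT.mem_Tup'.1 hs).1 j) h7 hj).1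
      omega
    have hone : ∀ E, FK true 0 0 0 (mc cls s) E 0 = 1 := by
      intro E
      unfold FK
      simp only [if_true, zero_mul, pow_zero, mul_one, div_one]
      rw [Fintype.piFinset_of_isEmpty, Fintype.piFinset_of_isEmpty]
      simp only [univ_unique, sum_singleton, univ_eq_empty, prod_empty]
      rw [if_pos]
      intro y hy
      exact absurd (Subsingleton.elim y 0) hy
    have h5 : avE A B (fun E => gF G (mc cls s) E ^ k) s ≤ avE A B (fun E =>
        M * (((FK true 0 0 0 (mc cls s) E 0 + TK k (mc cls s) E) +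
          ∑ c ∈ G, FK true 0 k k (mc cls s) E c) +
          ∑ c ∈ univ.filter (fun c => c ∉ G), (FK false 0 k k (mc cls s) E c +
            FK true k 0 k (mc cls s) E c))) s := by
      refine avE_mono hAB hs fun E => ?_
      rw [hone E]
      exact (hLA k (mc cls s) E G hok).2.2
    refine h5.trans (le_of_eq ?_)
    rw [avE_smul, avE_add, avE_add, avE_add, avE_sum, avE_sum]
    congr 2
    exact sum_congr rfl fun c _ => avE_add _ _ _ _ _
  refine (sum_le_sum h4).trans ?_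
  rw [← mul_sum, mul_assoc]
  refine mul_le_mul_of_nonneg_left ?_ hM0
  rw [sum_add_distrib, sum_add_distrib, sum_add_distrib, sum_comm, add_mul, add_mul, add_mul,
    sum_mul, sum_mul]
  refine add_le_add (add_le_add (add_le_add (hCo y hy) (hCt y hy)) (sum_le_sum fun c hc =>
    hC3 c hc y hy)) ?_
  rw [sum_comm]
  refine sum_le_sum fun c _ => ?_
  rw [sum_add_distrib, add_mul]
  exact add_le_add (hC1 c y hy) (hC2 c y hy)

end Pool.Agent.L7h19.FT
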