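import Mathlib
import Pool.Agent.L7h19.IK.Main
import Pool.Agent.L7h19.FT.Maj

/-!
# Project FT: the main theorem in short intervals, for sums over residue classes
-/

set_option autoImplicit false
set_option linter.unusedSectionVars false

namespace Pool.Agent.L7h19.FT

open Finset Polynomial Pool.Agent.W262.RK Pool.Agent.W307.RT Pool.Agent.L7h19.RJ
open Pool.Agent.L7h19.RP Pool.Agent.L7h19.IS Pool.Agent.L7h19.IT Pool.Agent.W108.RK
open Pool.Agent.L7h19.RH (Q0)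
open Pool.Agent.H474R2.PG (rho)

variable {J : Type} [Fintype J] [DecidableEq J]

/-- the bound for a nonnegative function of `t` by the local majorant `Ψ` -/
def RBF (g : ℝ) (κ f : J → ℤ[X]) (Ψ : (J → ℕ) → Finset ℕ → ℝ) (R : ℤ → ℝ) : Prop :=
  ∃ z1 : ℕ, ∀ z, z1 ≤ z → ∀ (t : ℤ) (y X k D : ℕ), Gd z (vf f t) →
    (∀ j, (vf f t j).natAbs ≤ X ^ D) → 1 ≤ X → 1 ≤ y → X < (y + 1) ^ k →
    R t ≤ g ^ (z + 2) * (g ^ (D * Fintype.card J)) ^ k *
      g ^ (∑ j, (S2 z y (vf f t) j).primeFactors.card) *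
      Ψ (S1 z y (vf f t)) (nF κ (S1 z y (vf f t)) t)

/-- the sum over the residue classes -/
noncomputable def RSum (κ f : J → ℤ[X]) (Ψ : (J → ℕ) → Finset ℕ → ℝ) (s : J → ℕ) : ℝ :=
  ∑ r ∈ Rs f s, Ψ s (nF κ s (r : ℤ))

lemma nF_mod {κ : J → ℤ[X]} {s : J → ℕ} {t t' : ℤ} (h : ∀ j, t ≡ t' [ZMOD (s j)]) :
    nF κ s t = nF κ s t' := by
  classical
  unfold nF
  refine filter_congr fun p _ => ?_
  refine exists_congr fun j => and_congr_right fun hj => ?_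
  have h1 : t ≡ t' [ZMOD (p : ℤ)] := (h j).of_dvd (by exact_mod_cast hj)
  have h2 : (κ j).eval t ≡ (κ j).eval t' [ZMOD (p : ℤ)] := eval_mod _ h1
  rw [jacobiSym.mod_left' h2]

theorem mainF (hGR : S_GRR) {g : ℝ} (hg1 : 1 ≤ g) (κ f : J → ℤ[X])
    (Ψ : (J → ℕ) → Finset ℕ → ℝ) (R : ℤ → ℝ) (hf : ∀ j, Irreducible (f j))
    (hd : ∀ j, 0 < (f j).natDegree) (hnd : ∀ j l, j ≠ l → ¬ f j ∣ f l)
    (hΨ0 : ∀ s E, 0 ≤ Ψ s E)
    (hΨ : ∀ (z y : ℕ) (s e : J → ℕ) (E : Finset ℕ), 2 ≤ z → (fun j => s j * e j) ∈ Tup J z y →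
      Ψ s E = Ψ s (E ∩ Q0 s) ∧
      Ψ (fun j => s j * e j) E ≤ g ^ (∑ j, (e j).primeFactors.card) * Ψ s E)
    (hR0 : ∀ t, 0 ≤ R t) (hR : RBF g κ f Ψ R)
    (hMaj : ∀ c : ℕ, ∃ z0 : ℕ, ∀ z, z0 ≤ z → ∃ C : ℝ, ∀ y, z < y →
      ∑ s ∈ Tup J z y, RSum κ f Ψ s * ∏ j, gw 1 c (s j) ≤ C * (Real.log y) ^ (Fintype.card J))
    (μ : ℕ) (hμ : 1 ≤ μ) :
    ∃ (X0 : ℕ) (B : ℝ), 0 ≤ B ∧ ∀ (X : ℕ) (T0 : ℤ), X0 ≤ X →
      (∀ t ∈ Icc 1 X, (T0 + (t : ℤ)).natAbs ≤ X ^ μ) →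
      ∑ t ∈ (Icc 1 X).filter (fun t : ℕ => ∀ j, vf f (T0 + t) j ≠ 0), R (T0 + t) ≤ B * X := by
  classical
  set N := Fintype.card J with hN
  set c : ℕ := 1 + ∑ j, (f j).natDegree with hc
  obtain ⟨z0, hz0⟩ := hMaj c
  obtain ⟨z1, hz1⟩ := hR
  choose Br hBr using fun j : J => Pool.Agent.H474R2.PG.rho_le (f j) (hf j).ne_zero
  choose Bd hBd using fun j : J => large_nd (hf j) (hd j) (nd_derivative (hd j))
  have hco : ∀ j l, ∃ B : ℕ, j ≠ l → ∀ p : ℕ, B < p → ∀ t : ℤ, (p : ℤ) ∣ (f j).eval t →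
      ¬ (p : ℤ) ∣ (f l).eval t := by
    intro j l
    by_cases h : j = l
    · exact ⟨0, fun h' => absurd h h'⟩
    · obtain ⟨B, hB⟩ := large_nd (hf j) (hd j) (hnd j l h)
      exact ⟨B, fun _ => hB⟩
  choose Bc hBc using hco
  set z : ℕ := z0 + z1 + (2 * c + 2) + ∑ j, Br j + ∑ j, Bd j + ∑ j, ∑ l, Bc j l with hz
  have hz2 : 2 ≤ z := by omega
  have hcz : 2 * c + 2 ≤ z := by omega
  have hcz' : c ≤ z := by omega
  have hdc : ∀ j, (f j).natDegree + 1 ≤ c := fun j => by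
    have := le_sum_nat (fun j => (f j).natDegree) j
    have h' : (f j).natDegree ≤ ∑ j, (f j).natDegree := this
    omega
  have hc1 : 1 ≤ c := by omega
  have hrho : ∀ p : ℕ, p.Prime → z < p → ∀ j, rho (f j) p ≤ c := fun p hp hzp j => by
    have e1 := le_sum_nat Br j
    have e2 := hBr j p hp (by omega)
    have e3 := hdc j
    omega
  have hBB : BgP f (fun _ => 1) c z := by
    refine ⟨hcz, hf, hd, fun p hp hzp => ?_, fun p hp hzp j t hj => ?_,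
      fun p hp hzp j l hjl t hj => ?_, fun p hp hzp j t hjt h => ?_⟩
    · have e1 : ∑ j, rho (f j) p ≤ ∑ j, (f j).natDegree := sum_le_sum fun j _ => by
        have e1 := le_sum_nat Br j
        exact hBr j p hp (by omega)
      omega
    · have e1 := le_sum_nat Bd j
      exact hBd j p (by omega) t hj
    · have e2 : Bc j l ≤ ∑ l, Bc j l := le_sum_nat (fun l => Bc j l) l
      have e3 : ∑ l, Bc j l ≤ ∑ j, ∑ l, Bc j l := le_sum_nat (fun j => ∑ l, Bc j l) j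
      exact hBc j l hjl p (by omega) t hj
    · rw [eval_one] at h
      exact hp.one_lt.ne' (Nat.dvd_one.1 (by exact_mod_cast h))
  have hGdJ : ∀ t : ℤ, (∀ j, vf f t j ≠ 0) → Gd z (vf f t) := fun t ht =>
    ⟨ht, fun p hp hzp j l hjl h => hBB.cop p hp hzp j l hjl t h.1 h.2⟩
  obtain ⟨C', hC'⟩ := hz0 z (by omega)
  obtain ⟨C, K, y0, hC0, hK1, hcn⟩ := stCntT J (fun _ => 0) f (fun _ => 1) c z hBB
  set c' : ℕ := μ * c with hc'
  set y1 : ℕ := y0 + ∑ j, cS (f j) + 3 with hy1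
  set b : ℝ := g * c with hb
  have hcr : (1 : ℝ) ≤ c := by exact_mod_cast hc1
  have hg0 : 0 ≤ g := by linarith
  have hb1 : 1 ≤ b := by rw [hb]; exact one_le_mul_of_one_le_of_one_le hg1 hcr
  set D : ℝ := g ^ (c' * N) * c with hD
  have hD1 : 1 ≤ D := one_le_mul_of_one_le_of_one_le (one_le_pow₀ hg1) hcr
  have hRS0 : ∀ s, 0 ≤ RSum κ f Ψ s := fun s => sum_nonneg fun r _ => hΨ0 _ _
  obtain ⟨X0, B, hB0, hmain⟩ := ant_u Pool.Agent.W591.RK2.ru Pool.Agent.W358.RK2.gr hb1 J z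
    (RSum κ f Ψ) (C * g ^ (z + 2)) C' D K y1 c hcz
    hRS0 (by positivity) hD1
    (fun y hy s e hse => by
      exact hGR J f κ c z y g Ψ hz2 hg0 hrho hΨ0 (fun s e E h => hΨ z y s e E hz2 h) s e hse) hC'
  refine ⟨X0 + 1, B, hB0, fun X T0 hX0 hTμ => ?_⟩
  have hX : 1 ≤ X := by omega
  have hXr : (1 : ℝ) ≤ X := by exact_mod_cast hX
  set TX : Finset ℕ := (Icc 1 X).filter (fun t : ℕ => ∀ j, vf f (T0 + t) j ≠ 0) with hTX
  have hmem : ∀ t ∈ TX, (1 ≤ t ∧ t ≤ X) ∧ ∀ j, vf f (T0 + t) j ≠ 0 := fun t ht => by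
    rw [hTX, mem_filter, mem_Icc] at ht
    exact ht
  refine hmain ℕ X TX (X : ℝ) (fun t : ℕ => vf f (T0 + (t : ℤ)))
    (fun t : ℕ => R (T0 + t)) (by omega) (by positivity)
    (fun t ht => hGdJ _ (hmem t ht).2) (fun t => hR0 _) ?_
  -- the bound for the classes
  intro y Y k hy0 hzy hyK hk s hs v hv u hu h8 T' hT'X hT'
  have hy00 : y0 ≤ y := by omega
  have hy3 : 3 ≤ y := by omega
  have hyX : y ≤ X := le_trans (Nat.le_self_pow (by omega) y) hyK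
  have hcSy : ∀ j, cS (f j) ≤ y := fun j => by
    have e1 : cS (f j) ≤ ∑ j, cS (f j) := le_sum_nat (fun j => cS (f j)) j
    omega
  have hyr : (3 : ℝ) ≤ y := by exact_mod_cast hy3
  have hlogy : 0 < Real.log y := Real.log_pos (by linarith)
  set m : ℕ := ∏ j, s j with hm
  have hm0 : m ≠ 0 := prod_ne_zero_iff.2 fun j _ => (Tup_pos hs j).ne'
  have hsm : ∀ j, s j ∣ m := fun j => dvd_prod_of_mem _ (mem_univ j)
  set W : ℝ := g ^ (z + 2) * (g ^ (c' * N)) ^ k *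
    g ^ (∑ j, (v j).primeFactors.card) with hW
  have hW0 : 0 ≤ W := by positivity
  have hm00 : (0 : ℤ) < (m : ℤ) := by exact_mod_cast Nat.pos_of_ne_zero hm0
  set τ : ℕ → ℕ := fun t => ((T0 + (t : ℤ)) % (m : ℤ)).toNat with hτd
  have hτ : ∀ t, ((τ t : ℕ) : ℤ) ≡ T0 + (t : ℤ) [ZMOD m] := by
    intro t
    have h0 := Int.emod_nonneg (T0 + (t : ℤ)) hm00.ne'
    rw [hτd]
    dsimp only
    rw [Int.toNat_of_nonneg h0]
    exact Int.mod_modEq _ _
  have hτl : ∀ t, τ t < m := by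
    intro t
    have h0 := Int.emod_nonneg (T0 + (t : ℤ)) hm00.ne'
    have h1 := Int.emod_lt_of_pos (T0 + (t : ℤ)) hm00
    rw [hτd]
    dsimp only
    omega
  have hb1' : ∀ t ∈ T', R (T0 + t) ≤ W * Ψ s (nF κ s ((τ t : ℕ) : ℤ)) := by
    intro t ht
    obtain ⟨htX, ht0⟩ := hmem t (hT'X ht)
    obtain ⟨hts, htv, _⟩ := hT' t ht
    have hr := hz1 z (by omega) (T0 + t) y X k c' (hGdJ (T0 + t) ht0) (fun j => by
        have e1 := eval_le (f j) (t := (T0 + (t : ℤ))) (X := X ^ μ) (hTμ t (mem_Icc.2 htX))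
          (le_trans (by have := hcSy j; omega) (Nat.le_self_pow (by omega) X))
          (Nat.one_le_pow _ _ hX)
        rw [← pow_mul] at e1
        exact e1.trans (Nat.pow_le_pow_right hX (Nat.mul_le_mul_left _ (hdc j)))) hX (by omega) hk
    rw [hts, htv] at hr
    rw [nF_mod (κ := κ) (s := s) (t := ((τ t : ℕ) : ℤ)) (t' := T0 + (t : ℤ)) (fun j =>
      (hτ t).of_dvd (by exact_mod_cast hsm j))]
    exact hr
  have hmaps : ∀ t ∈ T', τ t ∈ Rs f s := by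
    intro t ht
    obtain ⟨htX, ht0⟩ := hmem t (hT'X ht)
    obtain ⟨hts, htv, _⟩ := hT' t ht
    unfold Rs
    rw [mem_filter, mem_range]
    refine ⟨hτl t, fun j => ?_⟩
    have e1 : (s j : ℤ) ∣ vf f (T0 + t) j := by
      rw [← hts]
      unfold S1
      push_cast
      refine Finset.prod_dvd_of_coprime ?_ ?_
      · intro p hp q hq hpq
        have hp' := (mem_PS.1 (mem_filter.1 hp).1).2
        have hq' := (mem_PS.1 (mem_filter.1 hq).1).2
        exact Nat.isCoprime_iff_coprime.2 ((Nat.coprime_primes hp' hq').2 hpq)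
      · intro p hp
        exact (mem_filter.1 hp).2.1
    have e2 : (f j).eval ((τ t : ℕ) : ℤ) ≡ (f j).eval (T0 + (t : ℤ)) [ZMOD (s j)] :=
      eval_mod _ ((hτ t).of_dvd (by exact_mod_cast hsm j))
    exact (e2.dvd_iff).2 e1
  set Q : ℝ := C * X * (∏ j, gw 1 c (s j)) *
        (∏ j, gr (f j) c (v j) / v j) * (∏ j, ru (f j) (u j)) / (Real.log y) ^ N with hQ
  have hP3 : P3 (fun _ : J => (0 : Fin 4)) s = ∅ := by
    unfold P3
    rw [filter_false_of_mem fun j _ (h : (0 : Fin 4) = 3) => absurd h (by decide), prod_empty,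
      Nat.primeFactors_one]
  have hneg : ∀ t : ℤ, negP (fun _ : J => (0 : Fin 4)) f (fun _ => 1) t s = ∅ := by
    intro t
    unfold negP
    rw [hP3, filter_empty]
  have h3' : ∀ q ∈ Rs f s,
      ((T'.filter (fun t : ℕ => τ t = q)).card : ℝ) ≤ Q := by
    intro q hq
    have hrs : ∀ j, (s j : ℤ) ∣ (f j).eval (q : ℤ) := by
      unfold Rs at hq
      exact (mem_filter.1 hq).2
    have h5 := hcn X y Y hy00 hzy hyK s hs v hv u hu h8 T0 (q : ℤ) ∅ hrs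
    rw [hP3, card_empty, pow_zero, mul_one] at h5
    refine le_trans ?_ h5
    have h4 : T'.filter (fun t : ℕ => τ t = q) ⊆
        (Icc 1 X).filter (fun t : ℕ => (T0 + (t : ℤ)) ≡ (q : ℤ) [ZMOD ((∏ j, s j : ℕ) : ℤ)] ∧
          S1 z y (fun j => (f j).eval (T0 + (t : ℤ))) = s ∧
          S2 z y (fun j => (f j).eval (T0 + (t : ℤ))) = v ∧
          (∀ j, (u j : ℤ) ∣ (f j).eval (T0 + (t : ℤ))) ∧
          negP (fun _ : J => (0 : Fin 4)) f (fun _ => 1) (T0 + (t : ℤ)) s = ∅) := by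
      intro t ht
      rw [mem_filter] at ht
      obtain ⟨htX, ht0⟩ := hmem t (hT'X ht.1)
      obtain ⟨hts, htv, htu⟩ := hT' t ht.1
      rw [mem_filter, mem_Icc]
      refine ⟨htX, ?_, hts, htv, htu, hneg _⟩
      rw [← ht.2]
      exact (hτ t).symm
    exact_mod_cast card_le_card h4
  have hvb : ∏ j, gr (f j) c (v j) / (v j : ℝ) ≤
      (c : ℝ) ^ (∑ j, (v j).primeFactors.card) * ∏ j, (gw 1 c (v j) / (v j : ℝ)) := by
    rw [← prod_pow_eq_pow_sum, ← prod_mul_distrib]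
    refine prod_le_prod (fun j _ => div_nonneg (gr_le hcz (fun p hp hzp => hrho p hp hzp j)
        ((mem_Tup'.1 hv).1 j)).1 (Nat.cast_nonneg _)) fun j _ => ?_
    rw [← mul_div_assoc]
    exact div_le_div_of_nonneg_right (gr_le hcz (fun p hp hzp => hrho p hp hzp j)
        ((mem_Tup'.1 hv).1 j)).2 (Nat.cast_nonneg _)
  have hub : ∏ j, ru (f j) (u j) ≤ (c : ℝ) ^ k * ∏ j, 1 / (u j : ℝ) := by
    have e1 : ∏ j, ru (f j) (u j) ≤
        ∏ j, ((c : ℝ) ^ (u j).primeFactors.card * (1 / (u j : ℝ))) := by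
      refine prod_le_prod (fun j _ => (ru_le hzy.le (fun p hp hzp => hrho p hp hzp j)
        ((mem_Tup'.1 hu).1 j)).1) fun j _ => ?_
      exact (ru_le hzy.le (fun p hp hzp => hrho p hp hzp j) ((mem_Tup'.1 hu).1 j)).2
    refine e1.trans ?_
    rw [prod_mul_distrib, prod_pow_eq_pow_sum]
    refine mul_le_mul_of_nonneg_right ?_ (prod_nonneg fun j _ => by positivity)
    refine pow_le_pow_right₀ hcr (card_u hu (X := X) ?_ hk)
    have e3 : ∏ j, u j ≤ ∏ j, s j * v j * u j := by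
      refine prod_le_prod' fun j _ => ?_
      have e4 := Tup_pos hs j
      have e5 := Tup_pos hv j
      exact Nat.le_mul_of_pos_left _ (Nat.mul_pos e4 e5)
    refine e3.trans (le_trans ?_ h8)
    exact Nat.le_self_pow (by norm_num) _
  set Q' : ℝ := C * X * (∏ j, gw 1 c (s j)) *
        ((c : ℝ) ^ (∑ j, (v j).primeFactors.card) * ∏ j, (gw 1 c (v j) / (v j : ℝ))) *
        ((c : ℝ) ^ k * ∏ j, 1 / (u j : ℝ)) / (Real.log y) ^ N with hQ'
  have hgs : 0 ≤ ∏ j, gw 1 c (s j) := prod_nonneg fun j _ => gw_nn hcz' hs j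
  have hgr0 : 0 ≤ ∏ j, gr (f j) c (v j) / (v j : ℝ) :=
    prod_nonneg fun j _ => div_nonneg (gr_le hcz (fun p hp hzp => hrho p hp hzp j)
        ((mem_Tup'.1 hv).1 j)).1 (Nat.cast_nonneg _)
  have hru0 : 0 ≤ ∏ j, ru (f j) (u j) :=
    prod_nonneg fun j _ => (ru_le hzy.le (fun p hp hzp => hrho p hp hzp j)
        ((mem_Tup'.1 hu).1 j)).1
  have hQQ : Q ≤ Q' := by
    rw [hQ, hQ']
    refine div_le_div_of_nonneg_right ?_ (by positivity)
    refine mul_le_mul (mul_le_mul_of_nonneg_left hvb (by positivity)) hub hru0 ?_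
    refine mul_nonneg (by positivity) (hgr0.trans hvb)
  have hQ0 : 0 ≤ Q' := by
    have h0 : 0 ≤ Q := by
      rw [hQ]
      positivity
    exact h0.trans hQQ
  have hkey : ∑ t ∈ T', R (T0 + t) ≤ W * RSum κ f Ψ s * Q' := by
    calc ∑ t ∈ T', R (T0 + t) ≤ ∑ t ∈ T', W * Ψ s (nF κ s ((τ t : ℕ) : ℤ)) := sum_le_sum hb1'
      _ = ∑ q ∈ Rs f s, ∑ t ∈ T'.filter (fun t => τ t = q), W * Ψ s (nF κ s ((τ t : ℕ) : ℤ)) :=
          (sum_fiberwise_of_maps_to hmaps _).symm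
      _ = ∑ q ∈ Rs f s,
            W * Ψ s (nF κ s (q : ℤ)) * ((T'.filter (fun t : ℕ => τ t = q)).card : ℝ) := by
          refine sum_congr rfl fun q _ => ?_
          rw [sum_congr rfl (fun t ht => by rw [(mem_filter.1 ht).2]), sum_const, nsmul_eq_mul,
            mul_comm]
      _ ≤ ∑ q ∈ Rs f s, W * Ψ s (nF κ s (q : ℤ)) * Q' :=
          sum_le_sum fun q hq => mul_le_mul_of_nonneg_left ((h3' q hq).trans hQQ)
            (mul_nonneg hW0 (hΨ0 _ _))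
      _ = _ := by
          rw [← sum_mul, ← mul_sum]
          rfl
  refine hkey.trans (le_of_eq ?_)
  have hL : (Real.log y) ^ N ≠ 0 := by positivity
  have e2 : (∏ j, b ^ (v j).primeFactors.card * (gw 1 c (v j) / (v j : ℝ))) =
      b ^ (∑ j, (v j).primeFactors.card) * ∏ j, (gw 1 c (v j) / (v j : ℝ)) := by
    rw [prod_mul_distrib, prod_pow_eq_pow_sum]
  rw [e2, hQ', hW, hD, hb, mul_pow, mul_pow]
  rw [show Fintype.card J = N from rfl]
  field_simp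

end Pool.Agent.L7h19.FT
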