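import Mathlib
import Pool.Agent.L7h19.FT.Fin
import Pool.Agent.L7h19.FT.Wh
import Pool.Agent.L7h19.IK.All

/-!
# Project FT: the moments of the rank, abstract form
-/

set_option autoImplicit false
set_option linter.unusedSectionVars false

namespace Pool.Agent.L7h19.FT

open Finset Polynomial Pool.Agent.W262.RK Pool.Agent.W307.RT Pool.Agent.L7h19.RP
open Pool.Agent.L7h19.IS Pool.Agent.L7h19.IT
open Pool.Agent.L7h19.RH (Q0)

variable {J : Type} [Fintype J] [DecidableEq J]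

/-- the polynomial whose values decide the splitting, for the class `c` -/
noncomputable def kap (A B : ℤ[X]) (c : Fin 3) : ℤ[X] := if c = 0 then -B else if c = 1 then -A else A

lemma kap_eval (A B : ℤ[X]) (c : Fin 3) (t : ℤ) :
    (kap A B c).eval t = kz (A.eval t) (B.eval t) c := by
  unfold kap kz
  split_ifs <;> simp

lemma gF_nonneg (G : Finset (Fin 3)) (m : Fin 3 → ℕ) (E : Finset ℕ) : 0 ≤ gF G m E := by
  unfold gF
  positivity

/-- all parts -/
structure Parts : Prop where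
  rk : S_RKF
  gf : S_GRF
  gr : S_GRR
  crt : S_CRT
  ext : S_EXT
  exf : S_EXF
  ct : S_CT
  la : S_LAF
  up : S_UP2
  up0 : S_UP02
  sq : S_SQ
  bw : StBW
  fr : StFree

theorem absF (hP : Parts) (k : ℕ) (hk : 1 ≤ k) (cls : J → Fin 3) (a : Fin 3 → ℤ)
    (G : Finset (Fin 3)) (f : J → ℤ[X]) (A B : ℤ[X])
    (hf : ∀ j, Irreducible (f j)) (hd : ∀ j, 0 < (f j).natDegree)
    (hnd : ∀ j l, j ≠ l → ¬ f j ∣ f l) (ha : ∀ c, a c ≠ 0)
    (hF0 : ∀ t, Fv cls a (vf f t) 0 = A.eval t) (hF1 : ∀ t, Fv cls a (vf f t) 1 = B.eval t)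
    (hF2 : ∀ t, Fv cls a (vf f t) 2 = A.eval t - B.eval t)
    (hκ : ∀ j, ¬ f j ∣ kap A B (cls j))
    (hG : ∀ c ∈ G, 2 ^ k * ∑ j ∈ univ.filter (fun j => cls j = c), mu (f j) (kap A B (cls j)) ≤
      ((univ.filter (fun j => cls j ≠ c)).card : ℝ)) (ε : ℝ) (hε : 0 < ε) :
    ∃ C : ℝ, 0 ≤ C ∧ ∀ (X : ℕ) (u v : ℤ), 1 ≤ X → u.natAbs ≤ X → v.natAbs ≤ X →
      (X : ℝ) ^ ε ≤ (v : ℝ) - u →
      ∑ t ∈ (Icc u v).filter (fun t : ℤ => ∀ j, vf f t j ≠ 0),
        ((2 : ℝ) ^ ((Module.finrank ℤ (EAB (A.eval t) (B.eval t)).toAffine.Point : ℕ) -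
          (ez G (A.eval t) (B.eval t) : ℝ) : ℝ)) ^ k ≤ C * ((v : ℝ) - u) := by
  classical
  set κ : J → ℤ[X] := fun j => kap A B (cls j) with hκd
  set Ψ : (J → ℕ) → Finset ℕ → ℝ := fun s E => gF G (mc cls s) E ^ k with hΨd
  set g : ℝ := 16 ^ k with hg
  have hg1 : 1 ≤ g := one_le_pow₀ (by norm_num)
  set E : ℤ → ℝ := fun t => (Module.finrank ℤ (EAB (A.eval t) (B.eval t)).toAffine.Point : ℕ) -
          (ez G (A.eval t) (B.eval t) : ℝ) with hE
  set R : ℤ → ℝ := fun t => if ∀ j, vf f t j ≠ 0 then ((2 : ℝ) ^ (E t)) ^ k else 0 with hRd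
  have hR0 : ∀ t, 0 ≤ R t := fun t => by
    rw [hRd]
    dsimp only
    split_ifs
    · exact pow_nonneg (Real.rpow_nonneg (by norm_num) _) _
    · exact le_rfl
  have hΨ0 : ∀ s E, 0 ≤ Ψ s E := fun s E => pow_nonneg (gF_nonneg _ _ _) _
  have hΨ : ∀ (z y : ℕ) (s e : J → ℕ) (E : Finset ℕ), 2 ≤ z → (fun j => s j * e j) ∈ Tup J z y →
      Ψ s E = Ψ s (E ∩ Q0 s) ∧
      Ψ (fun j => s j * e j) E ≤ g ^ (∑ j, (e j).primeFactors.card) * Ψ s E := by
    intro z y s e E hz hse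
    obtain ⟨h1, h2⟩ := hP.gf J cls G z y s e E hz hse
    refine ⟨by rw [hΨd]; dsimp only; rw [← h1], ?_⟩
    rw [hΨd]
    dsimp only
    calc gF G (mc cls (fun j => s j * e j)) E ^ k ≤
          (4 ^ (∑ j, (e j).primeFactors.card) * gF G (mc cls s) E) ^ k :=
          pow_le_pow_left₀ (gF_nonneg _ _ _) h2 k
      _ = (4 ^ k) ^ (∑ j, (e j).primeFactors.card) * gF G (mc cls s) E ^ k := by
          rw [mul_pow, ← pow_mul, ← pow_mul, mul_comm k]
      _ ≤ _ := by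
          refine mul_le_mul_of_nonneg_right (pow_le_pow_left₀ (by positivity) ?_ _)
            (pow_nonneg (gF_nonneg _ _ _) _)
          exact pow_le_pow_left₀ (by norm_num) (by norm_num) k
  have hRB : RBF g κ f Ψ R := by
    refine ⟨∑ c, (a c).natAbs + 2, fun z hz t y X k' D hGd hx hX hy hk' => ?_⟩
    have h1 : R t = ((2 : ℝ) ^ (E t)) ^ k := if_pos hGd.1
    rw [h1]
    have hp : ∀ p : ℕ, p.Prime → z < p → ∀ c, ¬ (p : ℤ) ∣ a c := by
      intro p _ hzp c h2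
      have h3 := Nat.le_of_dvd (Int.natAbs_pos.2 (ha c)) (Int.natCast_dvd.1 h2)
      have h4 := le_sum_nat (fun c => (a c).natAbs) c
      have h5 : (a c).natAbs ≤ ∑ c, (a c).natAbs := h4
      omega
    have hS : S1 z y (vf f t) ∈ Tup J z y := Pool.Agent.W45.RT.S1_mem hGd
    have hE' : ∀ j (p : ℕ), p.Prime → p ∣ S1 z y (vf f t) j →
        (p ∈ nF κ (S1 z y (vf f t)) t ↔
          jacobiSym (kz (Fv cls a (vf f t) 0) (Fv cls a (vf f t) 1) (cls j)) p = -1) := by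
      intro j p hp hpj
      rw [hF0, hF1, ← kap_eval]
      unfold nF
      rw [mem_filter]
      constructor
      · rintro ⟨_, j', hj', h⟩
        have hjj : j' = j := by
          by_contra hne
          have h3 := (mem_Tup'.1 hS).2 j' j hne
          have h4 : p ∣ 1 := by
            rw [← Nat.Coprime.gcd_eq_one h3]
            exact Nat.dvd_gcd hj' hpj
          exact hp.one_lt.ne' (Nat.dvd_one.1 h4)
        rw [hjj] at h
        exact h
      · intro h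
        refine ⟨?_, j, hpj, h⟩
        unfold Q0
        rw [Nat.mem_primeFactors]
        exact ⟨hp, hpj.trans (dvd_prod_of_mem _ (mem_univ j)),
          prod_ne_zero_iff.2 fun j _ => (Tup_pos hS j).ne'⟩
    have h3 := hP.rk J cls a G (vf f t) z y X k' D (nF κ (S1 z y (vf f t)) t) (by omega) hGd ha hp
      (by rw [hF0, hF1, hF2]) hx hX hy hk' hE'
    rw [hF0, hF1] at h3
    have h6 := pow_le_pow_left₀ (Real.rpow_nonneg (by norm_num) _) h3 k
    refine h6.trans (le_of_eq ?_)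
    exact Pool.Agent.L7h19.IK.pow_aux _ _ _ _ _ _ _
  have hMaj : ∀ c : ℕ, ∃ z0 : ℕ, ∀ z, z0 ≤ z → ∃ C : ℝ, ∀ y, z < y →
      ∑ s ∈ Tup J z y, RSum κ f Ψ s * ∏ j, gw 1 c (s j) ≤
        C * (Real.log y) ^ (Fintype.card J) := by
    intro c
    obtain ⟨z0, h0⟩ := avgF hP.bw hP.fr hP.ext hP.exf hP.ct hP.la
      (wh hP.up hP.up0 hP.sq f κ hf hd hκ c) (fun j => mu_pos (f j) (κ j)) cls k hk G hG
    choose Bn hBn using fun j => large_nd (hf j) (hd j) (hκ j)
    refine ⟨z0 + c + 2 + ∑ j, Bn j, fun z hz => ?_⟩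
    obtain ⟨C, hC⟩ := h0 z (by omega)
    refine ⟨C, fun y hy => ?_⟩
    refine le_trans (le_of_eq ?_) (hC y hy)
    refine sum_congr rfl fun s hs => ?_
    have h1 := hP.crt J f κ c z y (by omega) (by omega) (fun p hp hzp j t hpt => by
      have h2 := le_sum_nat Bn j
      exact hBn j p (by omega) t hpt) s hs (Ψ s)
    exact h1
  obtain ⟨C, hC0, hC⟩ := finF hP.gr hg1 κ f Ψ R hf hd hnd hΨ0 hΨ hR0 hRB hMaj ε hε
  refine ⟨C, hC0, fun X u v hX hu hv huv => ?_⟩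
  refine le_trans (le_of_eq ?_) (hC X u v hX hu hv huv)
  refine sum_congr rfl fun t ht => ?_
  exact (if_pos (mem_filter.1 ht).2).symm

end Pool.Agent.L7h19.FT
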