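import Mathlib
import Pool.Agent.L7h19.FT.Abs
import Pool.Agent.L7h89.FT.Rkf
import Pool.Agent.L7h65.FT.Laf
import Pool.Agent.L7h60.FT.Exf
import Pool.Agent.L7h56.FT.Ext
import Pool.Agent.L7h78.FT.Grr
import Pool.Agent.L7h78.FT.Grf
import Pool.Agent.L7h46.FT.Crt
import Pool.Agent.L7h78.FT.Sq
import Pool.Agent.L7h50.UP.Up2
import Pool.Agent.L7h72.FT.CombT
import Pool.Agent.L7h19.RP.AllParts
import Pool.Agent.L7h23.RP.StFree

/-!
# Project FT: all parts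
-/

set_option autoImplicit false

namespace Pool.Agent.L7h19.FT

theorem parts : Parts where
  rk := Pool.Agent.L7h89.FT.s_RKF
  gf := Pool.Agent.L7h78.FT.s_GRF
  gr := Pool.Agent.L7h78.FT.s_GRR
  crt := Pool.Agent.L7h46.FT.s_CRT
  ext := Pool.Agent.L7h56.FT.s_EXT
  exf := Pool.Agent.L7h60.FT.s_EXF
  ct := fun J _ _ cls k U S => Pool.Agent.L7h72.FT.combT cls k U S
  la := Pool.Agent.L7h65.FT.s_LAF
  up := Pool.Agent.L7h50.UP.s_UP2
  up0 := Pool.Agent.L7h50.UP.s_UP02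
  sq := Pool.Agent.L7h78.FT.s_SQ
  bw := Pool.Agent.L7h19.RP.parts.bw
  fr := Pool.Agent.L7h23.RP.stFree

end Pool.Agent.L7h19.FT
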