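import Mathlib
import Pool.Agent.L7h19.FT.Abs
import Pool.Agent.L7h19.IT.All3

/-!
# Project FT: the irreducible factors of `A`, `B`, `A - B`
-/

set_option autoImplicit false
set_option linter.unusedSectionVars false

namespace Pool.Agent.L7h19.FT

open Finset Polynomial Pool.Agent.W262.RK Pool.Agent.W307.RT Pool.Agent.L7h19.RP
open Pool.Agent.L7h19.IS Pool.Agent.L7h19.IT
open Pool.Agent.L7h19.RH (Q0)

/-- `A`, `B`, `A - B` -/
noncomputable def Fp (A B : ℤ[X]) : Fin 3 → ℤ[X] := ![A, B, A - B]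

/-- the irreducible factors with their classes -/
abbrev JF (A B : ℤ[X]) : Type := Σ c : Fin 3, {f : ℤ[X] // f ∈ SF (Fp A B c)}

/-- the class -/
def clF {A B : ℤ[X]} (j : JF A B) : Fin 3 := j.1

/-- the polynomial -/
def poF {A B : ℤ[X]} (j : JF A B) : ℤ[X] := j.2.1

variable {A B : ℤ[X]}

lemma poF_mem (j : JF A B) : poF j ∈ SF (Fp A B (clF j)) := j.2.2

lemma prodJ (c : Fin 3) {M : Type} [CommMonoid M] (G : ℤ[X] → M) :
    ∏ j ∈ univ.filter (fun j : JF A B => clF j = c), G (poF j) = ∏ f ∈ SF (Fp A B c), G f := by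
  classical
  refine prod_bij (fun j _ => poF j) (fun j hj => ?_) (fun j hj l hl hjl => ?_)
    (fun f hf => ?_) (fun _ _ => rfl)
  · have h := poF_mem j
    rwa [(mem_filter.1 hj).2] at h
  · have h1 := (mem_filter.1 hj).2
    have h2 := (mem_filter.1 hl).2
    obtain ⟨cj, fj⟩ := j
    obtain ⟨cl, fl⟩ := l
    have h3 : cj = cl := h1.trans h2.symm
    subst h3
    congr 1
    exact Subtype.ext hjl
  · exact ⟨⟨c, ⟨f, hf⟩⟩, mem_filter.2 ⟨mem_univ _, rfl⟩, rfl⟩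

lemma sumJ (c : Fin 3) {M : Type} [AddCommMonoid M] (G : ℤ[X] → M) :
    ∑ j ∈ univ.filter (fun j : JF A B => clF j = c), G (poF j) = ∑ f ∈ SF (Fp A B c), G f := by
  classical
  refine sum_bij (fun j _ => poF j) (fun j hj => ?_) (fun j hj l hl hjl => ?_)
    (fun f hf => ?_) (fun _ _ => rfl)
  · have h := poF_mem j
    rwa [(mem_filter.1 hj).2] at h
  · have h1 := (mem_filter.1 hj).2
    have h2 := (mem_filter.1 hl).2
    obtain ⟨cj, fj⟩ := j
    obtain ⟨cl, fl⟩ := l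
    have h3 : cj = cl := h1.trans h2.symm
    subst h3
    congr 1
    exact Subtype.ext hjl
  · exact ⟨⟨c, ⟨f, hf⟩⟩, mem_filter.2 ⟨mem_univ _, rfl⟩, rfl⟩

lemma Fp_mul_dvd {c c' : Fin 3} (h : c ≠ c') : Fp A B c * Fp A B c' ∣ A * B * (A - B) := by
  fin_cases c <;> fin_cases c' <;>
    simp only [Fp, Fin.zero_eta, Fin.mk_one, Fin.reduceFinMk, Matrix.cons_val_zero,
      Matrix.cons_val_one, Matrix.cons_val, ne_eq, not_true_eq_false] at h ⊢
  · exact Dvd.intro _ rfl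
  · exact ⟨B, by ring⟩
  · exact ⟨A - B, by ring⟩
  · exact ⟨A, by ring⟩
  · exact ⟨B, by ring⟩
  · exact ⟨A, by ring⟩

lemma Fp_sqf (hsq : Squarefree (mq (A * B * (A - B)))) (c : Fin 3) :
    Squarefree (mq (Fp A B c)) := by
  have h1 : ∃ c', c ≠ c' := ⟨c + 1, by fin_cases c <;> decide⟩
  obtain ⟨c', hc'⟩ := h1
  refine hsq.squarefree_of_dvd ?_
  exact Polynomial.map_dvd _ ((Dvd.intro _ rfl).trans (Fp_mul_dvd hc'))

lemma not_both (hsq : Squarefree (mq (A * B * (A - B)))) {c c' : Fin 3} (h : c ≠ c') {f : ℤ[X]}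
    (hd : 0 < f.natDegree) (h1 : f ∣ Fp A B c) : ¬ f ∣ Fp A B c' := fun h2 =>
  mq_sq_dvd ((mul_dvd_mul h1 h2).trans (Fp_mul_dvd h)) hsq hd

lemma kap_nd (hsq : Squarefree (mq (A * B * (A - B)))) (j : JF A B) :
    ¬ poF j ∣ kap A B (clF j) := by
  have hj := SF_irr (poF_mem j)
  intro h
  have h1 : ∀ c : Fin 3, c ≠ clF j → ¬ poF j ∣ Fp A B c := fun c hc =>
    not_both hsq hc.symm hj.2.1 hj.2.2
  unfold kap at h
  split_ifs at h with h0 h2
  · exact h1 1 (by rw [h0]; decide) ((dvd_neg.1 h))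
  · exact h1 0 (by rw [h2]; decide) ((dvd_neg.1 h))
  · exact h1 0 (fun h' => h0 h'.symm) h

/-- all the facts on the factors -/
theorem facts (hsq : Squarefree (mq (A * B * (A - B)))) :
    (∀ j : JF A B, Irreducible (poF j)) ∧ (∀ j : JF A B, 0 < (poF j).natDegree) ∧
    (∀ j l : JF A B, j ≠ l → ¬ poF j ∣ poF l) ∧ ∃ a : Fin 3 → ℤ, (∀ c, a c ≠ 0) ∧
      ∀ c t, Fv (clF (A := A) (B := B)) a (vf poF t) c = (Fp A B c).eval t := by
  classical
  refine ⟨fun j => (SF_irr (poF_mem j)).1, fun j => (SF_irr (poF_mem j)).2.1, ?_, ?_⟩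
  · intro j l hjl hdvd
    have hj := SF_irr (poF_mem j)
    have hl := SF_irr (poF_mem l)
    by_cases h : clF j = clF l
    · obtain ⟨cj, fj⟩ := j
      obtain ⟨cl, fl⟩ := l
      have h3 : cj = cl := h
      subst h3
      refine SF_nd fj.2 fl.2 (fun h4 => hjl ?_) hdvd
      congr 1
      exact Subtype.ext h4
    · exact not_both hsq h hj.2.1 hj.2.2 (hdvd.trans hl.2.2)
  · choose a ha0 ha using fun c => exists_fac (Fp_sqf hsq c)
    refine ⟨a, ha0, fun c t => ?_⟩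
    unfold Fv
    have h1 := prodJ (A := A) (B := B) c (fun f => f.eval t)
    have h2 : ∏ j ∈ univ.filter (fun j : JF A B => clF j = c), vf poF t j =
        ∏ f ∈ SF (Fp A B c), f.eval t := h1
    rw [h2]
    conv_rhs => rw [ha c]
    rw [eval_mul, eval_C, eval_prod]

lemma ne_iff {a : Fin 3 → ℤ} (ha : ∀ c, a c ≠ 0)
    (hF : ∀ c t, Fv (clF (A := A) (B := B)) a (vf poF t) c = (Fp A B c).eval t) (t : ℤ) :
    A.eval t * B.eval t * (A.eval t - B.eval t) ≠ 0 ↔ ∀ j : JF A B, vf poF t j ≠ 0 := by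
  have h1 : A.eval t * B.eval t * (A.eval t - B.eval t) ≠ 0 ↔ ∀ c, (Fp A B c).eval t ≠ 0 := by
    rw [Fin.forall_fin_succ, Fin.forall_fin_succ, Fin.forall_fin_one]
    simp only [Fp, Matrix.cons_val_zero, Matrix.cons_val_succ, eval_sub, mul_ne_zero_iff,
      and_assoc]
  rw [h1]
  constructor
  · intro h j
    have h2 := h (clF j)
    rw [← hF] at h2
    unfold Fv at h2
    exact prod_ne_zero_iff.1 (mul_ne_zero_iff.1 h2).2 j (mem_filter.2 ⟨mem_univ _, rfl⟩)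
  · intro h c
    rw [← hF]
    unfold Fv
    exact mul_ne_zero (ha c) (prod_ne_zero_iff.2 fun j _ => h j)

/-- the moments -/
theorem momF (hP : Parts) (hsq : Squarefree (mq (A * B * (A - B)))) (k : ℕ)
    (hk : 1 ≤ k) (G : Finset (Fin 3))
    (hG : ∀ c ∈ G, 2 ^ k * ∑ f ∈ SF (Fp A B c), mu f (kap A B c) ≤
      ∑ c' ∈ univ.erase c, ((SF (Fp A B c')).card : ℝ)) (ε : ℝ) (hε : 0 < ε) :
    ∃ C : ℝ, 0 ≤ C ∧ ∀ (X : ℕ) (u v : ℤ), 1 ≤ X → u.natAbs ≤ X → v.natAbs ≤ X →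
      (X : ℝ) ^ ε ≤ (v : ℝ) - u →
      ∑ t ∈ (Icc u v).filter (fun t : ℤ => A.eval t * B.eval t * (A.eval t - B.eval t) ≠ 0),
        ((2 : ℝ) ^ ((Module.finrank ℤ (EAB (A.eval t) (B.eval t)).toAffine.Point : ℕ) -
          (ez G (A.eval t) (B.eval t) : ℝ) : ℝ)) ^ k ≤ C * ((v : ℝ) - u) := by
  classical
  obtain ⟨hf, hd, hnd, a, ha, hF⟩ := facts hsq
  obtain ⟨C, hC0, hC⟩ := absF hP k hk (clF (A := A) (B := B)) a G poF A B hf hd hnd ha
    (fun t => hF 0 t) (fun t => hF 1 t) (fun t => by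
      rw [hF 2 t]
      simp [Fp]) (kap_nd hsq) (fun c hc => by
      refine le_trans (le_of_eq ?_) ((hG c hc).trans (le_of_eq ?_))
      · rw [← sumJ c (fun f => mu f (kap A B c))]
        congr 1
        refine sum_congr rfl fun j hj => ?_
        rw [(mem_filter.1 hj).2]
      · rw [card_eq_sum_ones, Nat.cast_sum, ← sum_fiberwise_of_maps_to (t := univ.erase c)
          (g := clF) (fun j hj => mem_erase.2 ⟨(mem_filter.1 hj).2, mem_univ _⟩)]
        refine sum_congr rfl fun c' hc' => ?_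
        rw [card_eq_sum_ones, Nat.cast_sum, ← sumJ c' (fun _ => ((1 : ℕ) : ℝ)), filter_filter]
        refine sum_congr (filter_congr fun j _ => ?_) fun _ _ => rfl
        constructor
        · exact fun h => ⟨fun h' => (mem_erase.1 hc').1 (h.symm.trans h'), h⟩
        · exact fun h => h.2) ε hε
  refine ⟨C, hC0, fun X u v hX hu hv huv => ?_⟩
  refine le_trans (le_of_eq ?_) (hC X u v hX hu hv huv)
  refine sum_congr (filter_congr fun t _ => ?_) fun _ _ => rfl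
  exact ne_iff ha hF t

end Pool.Agent.L7h19.FT
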