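import Mathlib
import Pool.Agent.L7h19.FT.Wh
import Pool.Agent.L7h19.IS.Fac

/-!
# Project FT: elementary statements for the assembly
-/

set_option autoImplicit false

namespace Pool.Agent.L7h19.FT

open Finset Polynomial Pool.Agent.W262.RK Pool.Agent.W307.RT Pool.Agent.L7h19.RP
open Pool.Agent.L7h19.IS UniqueFactorizationMonoid

/-- **S_DZ2**: `dz` of the curve is the sum over the factors, up to a bounded error: a prime `p > z`
which divides no `a c` divides at most one `x j`, and it is counted in the same way on both sides. The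
other primes: at most `z + ∑ ω(a c)`, each counted at most `3 + |J|` times. -/
def S_DZ2 : Prop := ∀ (J : Type) [Fintype J] [DecidableEq J] (cls : J → Fin 3) (a : Fin 3 → ℤ)
  (x : J → ℤ) (z : ℕ) (c : Fin 3), 2 ≤ z → Gd z x → (∀ c, a c ≠ 0) →
  Fv cls a x 0 - Fv cls a x 1 = Fv cls a x 2 →
  |dz (Fv cls a x 0) (Fv cls a x 1) c -
    (∑ j ∈ univ.filter (fun j => cls j = c), (sp (kz (Fv cls a x 0) (Fv cls a x 1) c) (x j) : ℤ) -
      ∑ j ∈ univ.filter (fun j => cls j ≠ c), (om (x j) : ℤ))| ≤
    (((Fintype.card J + 3) * (z + ∑ c, (a c).natAbs.primeFactors.card) : ℕ) : ℤ)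

open Classical in
/-- **S_CQ**: the number of the irreducible factors modulo which `κ` is a square, over `ℤ` and over
`ℚ`. See `card_SF` in `Pool/Agent/L7h19/IS/Fac.lean` (`Multiset.Rel Associated`); `Sqr f κ` means
`∃ h : ℚ[X], mq f ∣ mq κ - h ^ 2`. -/
def S_CQ : Prop := ∀ g κ : ℤ[X], Squarefree (mq g) →
  ((SF g).filter (fun f => Sqr f κ)).card =
    ((normalizedFactors (mq g)).filter (fun p : ℚ[X] => ∃ h : ℚ[X], p ∣ mq κ - h ^ 2)).card

end Pool.Agent.L7h19.FT
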