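import Mathlib
import Pool.Agent.L7h19.FT.Inst
import Pool.Agent.L7h19.FT.Stm4

/-!
# Project FT: the average of the rank
-/

set_option autoImplicit false
set_option linter.unusedSectionVars false

namespace Pool.Agent.L7h19.FT

open Finset Polynomial Pool.Agent.W262.RK Pool.Agent.W307.RT Pool.Agent.L7h19.RP
open Pool.Agent.L7h19.IS Pool.Agent.L7h19.IT

variable {A B : ℤ[X]}

/-- the mean of `dz` -/
noncomputable def Mc (A B : ℤ[X]) (c : Fin 3) : ℝ :=
  ∑ f ∈ SF (Fp A B c), mu f (kap A B c) - ∑ c' ∈ univ.erase c, ((SF (Fp A B c')).card : ℝ)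

/-- `log log X ≥ 0.09` -/
lemma loglog_lb (X : ℕ) (hX : 3 ≤ X) : 0.09 ≤ Real.log (Real.log X) := by
  have h3 : (3 : ℝ) ≤ X := by exact_mod_cast hX
  have hl3 : (1.0986 : ℝ) ≤ Real.log 3 := by
    rw [Real.le_log_iff_exp_le (by norm_num)]
    have he := Real.exp_one_lt_d9
    have h5 : Real.exp (1.0986 : ℝ) = Real.exp 1 * Real.exp 0.0986 := by
      rw [← Real.exp_add]; norm_num
    have h6 : Real.exp (0.0986 : ℝ) ≤ 1.103626 := by
      have := Real.exp_bound' (x := 0.0986) (by norm_num) (by norm_num) (n := 4) (by norm_num)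
      refine this.trans ?_
      simp [Finset.sum_range_succ, Nat.factorial]
      norm_num
    rw [h5]
    calc Real.exp 1 * Real.exp 0.0986 ≤ 2.7182818286 * 1.103626 := by
          have := Real.exp_pos (1 : ℝ)
          have := Real.exp_pos (0.0986 : ℝ)
          gcongr
      _ ≤ 3 := by norm_num
  have h4 : Real.log 3 ≤ Real.log X := Real.log_le_log (by norm_num) h3
  have h7 : (0.09 : ℝ) ≤ Real.log 1.0986 := by
    rw [Real.le_log_iff_exp_le (by norm_num)]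
    have := Real.exp_bound' (x := 0.09) (by norm_num) (by norm_num) (n := 4) (by norm_num)
    refine this.trans ?_
    simp [Finset.sum_range_succ, Nat.factorial]
    norm_num
  refine h7.trans (Real.log_le_log (by norm_num) (hl3.trans h4))

/-- the second moments of `sp`, both cases together -/
lemma tkv (h : S_TKV) (f κ : ℤ[X]) (ε : ℝ) (hf : Irreducible f) (hd : 0 < f.natDegree)
    (hκ : ¬ f ∣ κ) (hε : 0 < ε) :
    ∃ C : ℝ, 0 ≤ C ∧ ∀ (X : ℕ) (u v : ℤ), 3 ≤ X → u.natAbs ≤ X → v.natAbs ≤ X →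
      (X : ℝ) ^ ε ≤ (v : ℝ) - u →
      ∑ t ∈ (Icc u v).filter (fun t : ℤ => f.eval t ≠ 0),
        (((sp (κ.eval t) (f.eval t) : ℕ) : ℝ) - mu f κ * Real.log (Real.log X)) ^ 2 ≤
        C * ((v : ℝ) - u) * Real.log (Real.log X) := by
  obtain ⟨C, hC⟩ := h f κ ε hf hd hκ hε
  refine ⟨|C|, abs_nonneg _, fun X u v hX hu hv huv => ?_⟩
  obtain ⟨h1, h2⟩ := hC X u v hX hu hv huv
  have hXr : (1 : ℝ) ≤ X := by
    have : (3 : ℝ) ≤ X := by exact_mod_cast hX
    linarith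
  have huv1 : (1 : ℝ) ≤ (v : ℝ) - u := (Real.one_le_rpow hXr hε.le).trans huv
  have hL := loglog_lb X hX
  have h3 : C * ((v : ℝ) - u) * Real.log (Real.log X) ≤
      |C| * ((v : ℝ) - u) * Real.log (Real.log X) := by
    refine mul_le_mul_of_nonneg_right (mul_le_mul_of_nonneg_right (le_abs_self _) ?_) ?_ <;>
      linarith
  unfold mu Sqr
  split_ifs with hs
  · rw [one_mul]
    exact (h1 hs).trans h3
  · refine le_trans (le_of_eq ?_) ((h2 hs).trans h3)
    refine sum_congr rfl fun t _ => ?_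
    rw [one_div, inv_mul_eq_div]

lemma om_sp (n : ℤ) : |((om n : ℕ) : ℝ) - ((sp 1 n : ℕ) : ℝ)| ≤ 1 := by
  have h1 : sp 1 n ≤ om n := card_le_card (filter_subset _ _)
  have h2 : om n ≤ sp 1 n + 1 := by
    unfold om sp
    have h3 : n.natAbs.primeFactors ⊆
        (n.natAbs.primeFactors.filter (fun p => p ≠ 2 ∧ jacobiSym 1 p = 1)) ∪ {2} := by
      intro p hp
      rw [mem_union, mem_filter, mem_singleton]
      by_cases h : p = 2
      · exact Or.inr h
      · exact Or.inl ⟨hp, h, jacobiSym.one_left p⟩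
    calc _ ≤ _ := card_le_card h3
      _ ≤ _ := card_union_le _ _
      _ = _ := by rw [card_singleton]
  have h1' : ((sp 1 n : ℕ) : ℝ) ≤ ((om n : ℕ) : ℝ) := by exact_mod_cast h1
  have h2' : ((om n : ℕ) : ℝ) ≤ ((sp 1 n : ℕ) : ℝ) + 1 := by exact_mod_cast h2
  rw [abs_le]
  constructor <;> linarith

lemma mu_one (f : ℤ[X]) : mu f 1 = 1 := by
  unfold mu
  refine if_pos ?_
  unfold Sqr
  rw [Polynomial.map_one, map_one]
  exact IsSquare.one

/-- the normalized counting functions -/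
noncomputable def gn (c : Fin 3) (L : ℝ) (t : ℤ) (j : JF A B) : ℝ := if clF j = c then
      ((sp ((kap A B (clF j)).eval t) ((poF j).eval t) : ℕ) : ℝ) - mu (poF j) (kap A B (clF j)) * L
    else ((sp ((1 : ℤ[X]).eval t) ((poF j).eval t) : ℕ) : ℝ) - mu (poF j) 1 * L

lemma card_ne (c : Fin 3) (L : ℝ) : ∑ _j ∈ univ.filter (fun j : JF A B => clF j ≠ c), L =
    (∑ c' ∈ univ.erase c, ((SF (Fp A B c')).card : ℝ)) * L := by
  classical
  rw [sum_const, nsmul_eq_mul]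
  congr 1
  rw [card_eq_sum_ones, Nat.cast_sum, ← sum_fiberwise_of_maps_to (t := univ.erase c)
      (g := clF) (fun j hj => mem_erase.2 ⟨(mem_filter.1 hj).2, mem_univ _⟩)]
  refine sum_congr rfl fun c' hc' => ?_
  rw [card_eq_sum_ones, Nat.cast_sum, ← sumJ c' (fun _ => ((1 : ℕ) : ℝ)), filter_filter]
  refine sum_congr (filter_congr fun j _ => ?_) fun _ _ => rfl
  constructor
  · exact fun h => h.2
  · exact fun h => ⟨fun h' => (mem_erase.1 hc').1 (h.symm.trans h'), h⟩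

lemma Mc_mul (c : Fin 3) (L : ℝ) : Mc A B c * L =
    ∑ j ∈ univ.filter (fun j : JF A B => clF j = c), mu (poF j) (kap A B c) * L -
    ∑ _j ∈ univ.filter (fun j : JF A B => clF j ≠ c), L := by
  unfold Mc
  rw [sub_mul, sum_mul, sumJ c (fun f => mu f (kap A B c) * L), card_ne]

/-- pointwise bound -/
lemma dzP {a : Fin 3 → ℤ} {z : ℕ} (hDZ : S_DZ2) (hz : 2 ≤ z) (ha : ∀ c, a c ≠ 0)
    (hF : ∀ c t, Fv (clF (A := A) (B := B)) a (vf poF t) c = (Fp A B c).eval t) (c : Fin 3)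
    (L : ℝ) (t : ℤ) (hG : Gd z (vf (poF (A := A) (B := B)) t)) :
    |((dz (A.eval t) (B.eval t) c : ℤ) : ℝ) - Mc A B c * L| ≤ ∑ j : JF A B, |gn c L t j| +
      ((((Fintype.card (JF A B) + 3) * (z + ∑ c, (a c).natAbs.primeFactors.card) : ℕ) : ℝ) +
        Fintype.card (JF A B)) := by
  classical
  have e0 : (Fp A B 0).eval t = A.eval t := rfl
  have e1 : (Fp A B 1).eval t = B.eval t := rfl
  have e2 : (Fp A B 2).eval t = A.eval t - B.eval t := eval_sub A B t
  have h1 := hDZ (JF A B) clF a (vf poF t) z c hz hG ha (by rw [hF, hF, hF, e0, e1, e2])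
  rw [hF 0, hF 1, e0, e1] at h1
  have h2 : |((dz (A.eval t) (B.eval t) c : ℤ) : ℝ) -
      (∑ j ∈ univ.filter (fun j : JF A B => clF j = c),
        ((sp (kz (A.eval t) (B.eval t) c) (vf poF t j) : ℕ) : ℝ) -
      ∑ j ∈ univ.filter (fun j : JF A B => clF j ≠ c), ((om (vf poF t j) : ℕ) : ℝ))| ≤
      (((Fintype.card (JF A B) + 3) * (z + ∑ c, (a c).natAbs.primeFactors.card) : ℕ) : ℝ) := by
    exact_mod_cast h1
  have h3 := Mc_mul (A := A) (B := B) c L
  have h4 : ∑ j ∈ univ.filter (fun j : JF A B => clF j = c),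
        ((sp (kz (A.eval t) (B.eval t) c) (vf poF t j) : ℕ) : ℝ) -
      ∑ j ∈ univ.filter (fun j : JF A B => clF j = c), mu (poF j) (kap A B c) * L =
      ∑ j ∈ univ.filter (fun j : JF A B => clF j = c), gn c L t j := by
    rw [← sum_sub_distrib]
    refine sum_congr rfl fun j hj => ?_
    have h5 := (mem_filter.1 hj).2
    unfold gn
    rw [if_pos h5, h5, kap_eval]
    rfl
  have h6 : |∑ j ∈ univ.filter (fun j : JF A B => clF j ≠ c), ((om (vf poF t j) : ℕ) : ℝ) -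
      ∑ j ∈ univ.filter (fun j : JF A B => clF j ≠ c), L -
      ∑ j ∈ univ.filter (fun j : JF A B => clF j ≠ c), gn c L t j| ≤ Fintype.card (JF A B) := by
    rw [← sum_sub_distrib, ← sum_sub_distrib]
    refine (abs_sum_le_sum_abs _ _).trans ?_
    calc _ ≤ ∑ j ∈ univ.filter (fun j : JF A B => clF j ≠ c), (1 : ℝ) := by
          refine sum_le_sum fun j hj => ?_
          have h5 := (mem_filter.1 hj).2
          have h7 := om_sp (vf poF t j)
          unfold gn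
          rw [if_neg h5, mu_one, eval_one]
          have e : ((om (vf poF t j) : ℕ) : ℝ) - L - (((sp 1 ((poF j).eval t) : ℕ) : ℝ) - 1 * L) =
              ((om (vf poF t j) : ℕ) : ℝ) - ((sp 1 (vf poF t j) : ℕ) : ℝ) := by
            have : ((sp 1 ((poF j).eval t) : ℕ) : ℝ) = ((sp 1 (vf poF t j) : ℕ) : ℝ) := rfl
            rw [this]
            ring
          rw [e]
          exact h7
      _ ≤ ∑ j : JF A B, (1 : ℝ) :=
          sum_le_sum_of_subset_of_nonneg (filter_subset _ _) fun _ _ _ => by norm_num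
      _ = Fintype.card (JF A B) := by rw [sum_const, nsmul_eq_mul, mul_one, card_univ]
  have h8 : |∑ j ∈ univ.filter (fun j : JF A B => clF j = c), gn c L t j| +
      |∑ j ∈ univ.filter (fun j : JF A B => clF j ≠ c), gn c L t j| ≤
      ∑ j : JF A B, |gn c L t j| := by
    rw [← sum_filter_add_sum_filter_not univ (fun j : JF A B => clF j = c)]
    exact add_le_add (abs_sum_le_sum_abs _ _) (abs_sum_le_sum_abs _ _)
  rw [h3]
  have a1 := abs_le.1 h2
  have a2 := abs_le.1 h6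
  have a3 := neg_abs_le (∑ j ∈ univ.filter (fun j : JF A B => clF j = c), gn c L t j)
  have a4 := le_abs_self (∑ j ∈ univ.filter (fun j : JF A B => clF j = c), gn c L t j)
  have a5 := neg_abs_le (∑ j ∈ univ.filter (fun j : JF A B => clF j ≠ c), gn c L t j)
  have a6 := le_abs_self (∑ j ∈ univ.filter (fun j : JF A B => clF j ≠ c), gn c L t j)
  rw [abs_le]
  constructor <;> linarith [a1.1, a1.2, a2.1, a2.2]

/-- second moment of `gn` -/
lemma gnV (hTK : S_TKV) (hsq : Squarefree (mq (A * B * (A - B)))) (c : Fin 3) (ε : ℝ)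
    (hε : 0 < ε) (j : JF A B) :
    ∃ C : ℝ, 0 ≤ C ∧ ∀ (X : ℕ) (u v : ℤ), 3 ≤ X → u.natAbs ≤ X → v.natAbs ≤ X →
      (X : ℝ) ^ ε ≤ (v : ℝ) - u →
      ∑ t ∈ (Icc u v).filter (fun t : ℤ => (poF j).eval t ≠ 0),
        (gn c (Real.log (Real.log X)) t j) ^ 2 ≤ C * ((v : ℝ) - u) * Real.log (Real.log X) := by
  obtain ⟨hf, hd, -, -⟩ := facts hsq
  by_cases h : clF j = c
  · obtain ⟨C, hC0, hC⟩ := tkv hTK (poF j) (kap A B (clF j)) ε (hf j) (hd j) (kap_nd hsq j) hε
    refine ⟨C, hC0, fun X u v hX hu hv huv => ?_⟩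
    refine le_trans (le_of_eq ?_) (hC X u v hX hu hv huv)
    refine sum_congr rfl fun t _ => ?_
    unfold gn
    rw [if_pos h]
  · obtain ⟨C, hC0, hC⟩ := tkv hTK (poF j) 1 ε (hf j) (hd j) (not_dvd_one (hf j)) hε
    refine ⟨C, hC0, fun X u v hX hu hv huv => ?_⟩
    refine le_trans (le_of_eq ?_) (hC X u v hX hu hv huv)
    refine sum_congr rfl fun t _ => ?_
    unfold gn
    rw [if_neg h]

lemma exists_Gd (hsq : Squarefree (mq (A * B * (A - B)))) : ∃ z : ℕ, 2 ≤ z ∧ ∀ t : ℤ,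
    (∀ j : JF A B, vf poF t j ≠ 0) → Gd z (vf (poF (A := A) (B := B)) t) := by
  classical
  obtain ⟨hf, hd, hnd, -⟩ := facts hsq
  have hco : ∀ j l : JF A B, ∃ B' : ℕ, j ≠ l → ∀ p : ℕ, B' < p → ∀ t : ℤ,
      (p : ℤ) ∣ (poF j).eval t → ¬ (p : ℤ) ∣ (poF l).eval t := by
    intro j l
    by_cases h1 : j = l
    · exact ⟨0, fun h' => absurd h1 h'⟩
    · obtain ⟨B', hB⟩ := large_nd (hf j) (hd j) (hnd j l h1)
      exact ⟨B', fun _ => hB⟩
  choose Bc hBc using hco
  refine ⟨∑ j, ∑ l, Bc j l + 2, by omega, fun t ht => ⟨ht, fun p hp hzp j l hjl h1 => ?_⟩⟩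
  have e2 : Bc j l ≤ ∑ l, Bc j l := le_sum_nat (fun l => Bc j l) l
  have e3 : ∑ l, Bc j l ≤ ∑ j, ∑ l, Bc j l := le_sum_nat (fun j => ∑ l, Bc j l) j
  exact hBc j l hjl p (by omega) t h1.1 h1.2

/-- the second moment of `dz` -/
theorem dzV (hTK : S_TKV) (hDZ : S_DZ2) (hsq : Squarefree (mq (A * B * (A - B)))) (c : Fin 3)
    (ε : ℝ) (hε : 0 < ε) :
    ∃ C : ℝ, 0 ≤ C ∧ ∀ (X : ℕ) (u v : ℤ), 3 ≤ X → u.natAbs ≤ X → v.natAbs ≤ X →
      (X : ℝ) ^ ε ≤ (v : ℝ) - u →
      ∑ t ∈ (Icc u v).filter (fun t : ℤ => A.eval t * B.eval t * (A.eval t - B.eval t) ≠ 0),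
        (((dz (A.eval t) (B.eval t) c : ℤ) : ℝ) - Mc A B c * Real.log (Real.log X)) ^ 2 ≤
        C * ((v : ℝ) - u) * Real.log (Real.log X) := by
  classical
  obtain ⟨-, -, -, a, ha, hF⟩ := facts hsq
  choose C1 hC10 hC1 using fun j : JF A B => gnV hTK hsq c ε hε j
  obtain ⟨z, hz, hGd⟩ := exists_Gd hsq
  obtain ⟨N, hN⟩ : ∃ N : ℝ, N = Fintype.card (JF A B) := ⟨_, rfl⟩
  obtain ⟨K, hK⟩ : ∃ K : ℝ, K = (((Fintype.card (JF A B) + 3) *
    (z + ∑ c, (a c).natAbs.primeFactors.card) : ℕ) : ℝ) + Fintype.card (JF A B) := ⟨_, rfl⟩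
  have hN0 : 0 ≤ N := by rw [hN]; exact Nat.cast_nonneg _
  have hK0 : 0 ≤ K := by rw [hK]; exact add_nonneg (Nat.cast_nonneg _) (Nat.cast_nonneg _)
  obtain ⟨S1, hS1⟩ : ∃ S1 : ℝ, S1 = ∑ j, C1 j := ⟨_, rfl⟩
  have hs0 : 0 ≤ S1 := by rw [hS1]; exact sum_nonneg fun j _ => hC10 j
  obtain ⟨D, hD⟩ : ∃ D : ℝ, D = 2 * N * S1 + 4 * K ^ 2 / 0.09 := ⟨_, rfl⟩
  have hD0 : 0 ≤ D := by rw [hD]; positivity
  refine ⟨D, hD0, fun X u v hX hu hv huv => ?_⟩
  have hXr : (1 : ℝ) ≤ X := by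
    have : (3 : ℝ) ≤ X := by exact_mod_cast hX
    linarith
  have huv1 : (1 : ℝ) ≤ (v : ℝ) - u := (Real.one_le_rpow hXr hε.le).trans huv
  have hw : 0 ≤ (v : ℝ) - u := by linarith
  have hL := loglog_lb X hX
  set LL := Real.log (Real.log X) with hLL
  set T := (Icc u v).filter (fun t : ℤ => A.eval t * B.eval t * (A.eval t - B.eval t) ≠ 0) with hT
  have hTmem : ∀ t ∈ T, ∀ j : JF A B, vf poF t j ≠ 0 := fun t ht =>
    (ne_iff ha hF t).1 (mem_filter.1 ht).2
  have hTcard : (T.card : ℝ) ≤ 2 * ((v : ℝ) - u) := by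
    have h2 : T.card ≤ (Icc u v).card := card_le_card (filter_subset _ _)
    rw [Int.card_Icc] at h2
    have huvz : (1 : ℤ) ≤ v - u := by exact_mod_cast huv1
    have h3 : ((T.card : ℕ) : ℤ) ≤ v - u + 1 := by omega
    have h4 : (T.card : ℝ) ≤ (v : ℝ) - u + 1 := by exact_mod_cast h3
    linarith
  have h1 : ∀ t ∈ T, (((dz (A.eval t) (B.eval t) c : ℤ) : ℝ) - Mc A B c * LL) ^ 2 ≤
      2 * N * ∑ j : JF A B, gn c LL t j ^ 2 + 2 * K ^ 2 := by
    intro t ht
    have h2 := dzP hDZ hz ha hF c LL t (hGd t (hTmem t ht))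
    rw [← hK] at h2
    have h3 : (∑ j : JF A B, |gn c LL t j|) ^ 2 ≤ N * ∑ j : JF A B, |gn c LL t j| ^ 2 := by
      have := sq_sum_le_card_mul_sum_sq (s := (univ : Finset (JF A B)))
        (f := fun j => |gn c LL t j|)
      rwa [card_univ, ← hN] at this
    have h4 : ∑ j : JF A B, |gn c LL t j| ^ 2 = ∑ j : JF A B, gn c LL t j ^ 2 :=
      sum_congr rfl fun j _ => sq_abs _
    rw [h4] at h3
    calc (((dz (A.eval t) (B.eval t) c : ℤ) : ℝ) - Mc A B c * LL) ^ 2 =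
          |((dz (A.eval t) (B.eval t) c : ℤ) : ℝ) - Mc A B c * LL| ^ 2 := (sq_abs _).symm
      _ ≤ (∑ j : JF A B, |gn c LL t j| + K) ^ 2 := pow_le_pow_left₀ (abs_nonneg _) h2 2
      _ ≤ 2 * (∑ j : JF A B, |gn c LL t j|) ^ 2 + 2 * K ^ 2 := by
          nlinarith [sq_nonneg (∑ j : JF A B, |gn c LL t j| - K)]
      _ ≤ _ := by linarith
  have h5 : ∀ j : JF A B, ∑ t ∈ T, gn c LL t j ^ 2 ≤ C1 j * ((v : ℝ) - u) * LL := by
    intro j
    have hsub : T ⊆ (Icc u v).filter (fun t : ℤ => (poF j).eval t ≠ 0) := fun t ht =>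
      mem_filter.2 ⟨(mem_filter.1 ht).1, hTmem t ht j⟩
    exact (sum_le_sum_of_subset_of_nonneg hsub fun _ _ _ => sq_nonneg _).trans
      (hC1 j X u v hX hu hv huv)
  have h6 := sum_le_sum h1
  rw [sum_add_distrib, ← mul_sum, sum_comm, sum_const, nsmul_eq_mul] at h6
  have h7 : ∑ j : JF A B, ∑ t ∈ T, gn c LL t j ^ 2 ≤ S1 * ((v : ℝ) - u) * LL := by
    rw [hS1, sum_mul, sum_mul]
    exact sum_le_sum fun j _ => h5 j
  have h8 : (T.card : ℝ) * (2 * K ^ 2) ≤ 4 * K ^ 2 / 0.09 * ((v : ℝ) - u) * LL := by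
    calc (T.card : ℝ) * (2 * K ^ 2) ≤ (2 * ((v : ℝ) - u)) * (2 * K ^ 2) :=
          mul_le_mul_of_nonneg_right hTcard (by positivity)
      _ = 4 * K ^ 2 / 0.09 * ((v : ℝ) - u) * 0.09 := by ring
      _ ≤ _ := mul_le_mul_of_nonneg_left hL (by positivity)
  have h9 : 2 * N * ∑ j : JF A B, ∑ t ∈ T, gn c LL t j ^ 2 ≤
      2 * N * (S1 * ((v : ℝ) - u) * LL) :=
    mul_le_mul_of_nonneg_left h7 (by positivity)
  refine h6.trans ?_
  calc _ ≤ 2 * N * (S1 * ((v : ℝ) - u) * LL) +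
        4 * K ^ 2 / 0.09 * ((v : ℝ) - u) * LL := add_le_add h9 h8
    _ = D * ((v : ℝ) - u) * LL := by rw [hD]; ring

/-- **the average rank** -/
theorem rankF (hP : Parts) (hTK : S_TKV) (hDZ : S_DZ2)
    (hsq : Squarefree (mq (A * B * (A - B)))) (μ : ℝ) (hμ0 : 0 ≤ μ) (hμ : ∀ c, Mc A B c ≤ μ)
    (ε : ℝ) (hε : 0 < ε) :
    ∃ C : ℝ, 0 ≤ C ∧ ∀ (X : ℕ) (u v : ℤ), 3 ≤ X → u.natAbs ≤ X → v.natAbs ≤ X →
      (X : ℝ) ^ ε ≤ (v : ℝ) - u →
      (∑ t ∈ (Icc u v).filter (fun t : ℤ => A.eval t * B.eval t * (A.eval t - B.eval t) ≠ 0),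
        ((Module.finrank ℤ (EAB (A.eval t) (B.eval t)).toAffine.Point : ℕ) : ℝ) ≤
        (μ * Real.log (Real.log X) + C * √(Real.log (Real.log X))) * ((v : ℝ) - u)) ∧
      ((∀ c, Mc A B c < 0) →
      ∑ t ∈ (Icc u v).filter (fun t : ℤ => A.eval t * B.eval t * (A.eval t - B.eval t) ≠ 0),
        ((Module.finrank ℤ (EAB (A.eval t) (B.eval t)).toAffine.Point : ℕ) : ℝ) ≤
        C * ((v : ℝ) - u)) := by
  classical
  obtain ⟨C1, hC10, hC1⟩ := momF hP hsq 1 le_rfl ∅ (fun c hc => absurd hc (notMem_empty c)) ε hε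
  choose C2 hC20 hC2 using fun c => dzV hTK hDZ hsq c ε hε
  set D : ℝ := ∑ c, C2 c with hD
  have hD0 : 0 ≤ D := sum_nonneg fun c _ => hC20 c
  set D4 : ℝ := ∑ c, C2 c / (4 * |Mc A B c|) with hD4
  have hD40 : 0 ≤ D4 := sum_nonneg fun c _ => div_nonneg (hC20 c) (by positivity)
  refine ⟨C1 / 0.3 + D + 6 + μ * (1 / ε + 1) + (C1 + D4), by positivity,
    fun X u v hX hu hv huv => ?_⟩
  have hX1 : 1 ≤ X := by omega
  have hXr3 : (3 : ℝ) ≤ X := by exact_mod_cast hX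
  have hXr : (1 : ℝ) ≤ X := by linarith
  have huv1 : (1 : ℝ) ≤ (v : ℝ) - u := (Real.one_le_rpow hXr hε.le).trans huv
  have hw : 0 ≤ (v : ℝ) - u := by linarith
  have hL := loglog_lb X hX
  set LL := Real.log (Real.log X) with hLL
  have hLLp : 0 < LL := by linarith
  set Q := √LL with hQ
  have hQ0 : 0.3 ≤ Q := by
    rw [hQ]
    apply Real.le_sqrt_of_sq_le
    norm_num
    linarith
  have hQp : 0 < Q := by linarith
  have hQQ : Q * Q = LL := Real.mul_self_sqrt hLLp.le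
  set T := (Icc u v).filter (fun t : ℤ => A.eval t * B.eval t * (A.eval t - B.eval t) ≠ 0) with hT
  have hTcard1 : (T.card : ℝ) ≤ (v : ℝ) - u + 1 := by
    have h2 : T.card ≤ (Icc u v).card := card_le_card (filter_subset _ _)
    rw [Int.card_Icc] at h2
    have huvz : (1 : ℤ) ≤ v - u := by exact_mod_cast huv1
    have h3 : ((T.card : ℕ) : ℤ) ≤ v - u + 1 := by omega
    exact_mod_cast h3
  have hTcard : (T.card : ℝ) ≤ 2 * ((v : ℝ) - u) := by linarith
  set r : ℤ → ℝ := fun t =>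
    ((Module.finrank ℤ (EAB (A.eval t) (B.eval t)).toAffine.Point : ℕ) : ℝ) with hr
  set e : ℤ → ℝ := fun t => (ez ∅ (A.eval t) (B.eval t) : ℝ) with he
  set d : Fin 3 → ℤ → ℝ := fun c t => ((dz (A.eval t) (B.eval t) c : ℤ) : ℝ) with hd
  have hmom : ∑ t ∈ T, (2 : ℝ) ^ (r t - e t) ≤ C1 * ((v : ℝ) - u) := by
    have h1 := hC1 X u v hX1 hu hv huv
    refine le_trans (le_of_eq ?_) h1
    exact sum_congr rfl fun t _ => by rw [pow_one]
  have hre : ∀ t, r t ≤ (2 : ℝ) ^ (r t - e t) + e t := by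
    intro t
    have h2 := Pool.Agent.L7h19.IS.le_two_rpow (r t - e t)
    linarith
  have hec : ∀ t, ∃ c, e t = max (d c t) 0 := by
    intro t
    have h1 : (univ.filter (fun c : Fin 3 => c ∉ (∅ : Finset (Fin 3)))).Nonempty :=
      ⟨0, mem_filter.2 ⟨mem_univ _, notMem_empty _⟩⟩
    obtain ⟨c, _, hc⟩ := exists_mem_eq_sup _ h1
      (fun c => (dz (A.eval t) (B.eval t) c).toNat)
    refine ⟨c, ?_⟩
    rw [he, hd]
    dsimp only
    unfold ez
    rw [hc]
    have h2 : (((dz (A.eval t) (B.eval t) c).toNat : ℕ) : ℤ) =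
      max (dz (A.eval t) (B.eval t) c) 0 := Int.toNat_eq_max _
    have h3 : ((((dz (A.eval t) (B.eval t) c).toNat : ℕ) : ℤ) : ℝ) =
      ((max (dz (A.eval t) (B.eval t) c) 0 : ℤ) : ℝ) := by rw [h2]
    push_cast at h3
    exact h3
  have hsumr : ∑ t ∈ T, r t ≤ C1 * ((v : ℝ) - u) + ∑ t ∈ T, e t := by
    calc ∑ t ∈ T, r t ≤ ∑ t ∈ T, ((2 : ℝ) ^ (r t - e t) + e t) := sum_le_sum fun t _ => hre t
      _ ≤ _ := by
          rw [sum_add_distrib]
          linarith
  constructor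
  · -- the general bound
    have h1 : ∀ t ∈ T, e t ≤ μ * LL + ∑ c, |d c t - Mc A B c * LL| := by
      intro t _
      obtain ⟨c, hc⟩ := hec t
      have h2 : |d c t - Mc A B c * LL| ≤ ∑ c, |d c t - Mc A B c * LL| :=
        single_le_sum (f := fun c => |d c t - Mc A B c * LL|) (fun _ _ => abs_nonneg _)
          (mem_univ c)
      have h3 := le_abs_self (d c t - Mc A B c * LL)
      have h4 : Mc A B c * LL ≤ μ * LL := mul_le_mul_of_nonneg_right (hμ c) hLLp.le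
      have h5 : 0 ≤ μ * LL := by positivity
      have h6 : 0 ≤ |d c t - Mc A B c * LL| := abs_nonneg _
      rw [hc]
      rcases max_choice (d c t) 0 with h7 | h7 <;> rw [h7] <;> linarith
    have h2 : ∀ c, ∑ t ∈ T, |d c t - Mc A B c * LL| ≤ (C2 c + 2) * Q * ((v : ℝ) - u) := by
      intro c
      have h3 : ∀ t ∈ T, |d c t - Mc A B c * LL| ≤
          (d c t - Mc A B c * LL) ^ 2 / Q + Q := by
        intro t _
        rw [← sq_abs (d c t - Mc A B c * LL)]
        set x := |d c t - Mc A B c * LL|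
        rw [div_add' _ _ _ hQp.ne', le_div_iff₀ hQp]
        nlinarith [sq_nonneg (x - Q), abs_nonneg (d c t - Mc A B c * LL)]
      have h4 := sum_le_sum h3
      rw [sum_add_distrib, ← sum_div, sum_const, nsmul_eq_mul] at h4
      have h5 : (∑ t ∈ T, (d c t - Mc A B c * LL) ^ 2) / Q ≤ C2 c * ((v : ℝ) - u) * Q := by
        rw [div_le_iff₀ hQp]
        have h6 := hC2 c X u v hX hu hv huv
        rw [← hLL] at h6
        calc _ ≤ _ := h6
          _ = _ := by rw [← hQQ]; ring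
      have h6 : (T.card : ℝ) * Q ≤ 2 * ((v : ℝ) - u) * Q := mul_le_mul_of_nonneg_right hTcard hQp.le
      linarith
    have h3 : ∑ t ∈ T, e t ≤ (T.card : ℝ) * (μ * LL) + (D + 6) * Q * ((v : ℝ) - u) := by
      calc ∑ t ∈ T, e t ≤ ∑ t ∈ T, (μ * LL + ∑ c, |d c t - Mc A B c * LL|) := sum_le_sum h1
        _ = (T.card : ℝ) * (μ * LL) + ∑ c, ∑ t ∈ T, |d c t - Mc A B c * LL| := by
            rw [sum_add_distrib, sum_const, nsmul_eq_mul, sum_comm]
        _ ≤ (T.card : ℝ) * (μ * LL) + ∑ c, (C2 c + 2) * Q * ((v : ℝ) - u) := by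
            have := sum_le_sum fun c (_ : c ∈ (univ : Finset (Fin 3))) => h2 c
            linarith
        _ = _ := by
            rw [← sum_mul, ← sum_mul, sum_add_distrib, sum_const, card_univ, Fintype.card_fin,
              hD]
            norm_num
    have hQX : Q ≤ (1 / ε + 1) * ((v : ℝ) - u) := by
      have e1 : LL ≤ Real.log X := by
        rw [hLL]
        have := Real.log_le_sub_one_of_pos (show 0 < Real.log X by
          apply Real.log_pos; linarith)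
        linarith
      have e2 : Real.log X ≤ (X : ℝ) ^ ε / ε := Real.log_le_rpow_div (by linarith) hε
      have e3 : Q ≤ 1 + LL := by nlinarith
      have e4 : (X : ℝ) ^ ε / ε ≤ (1 / ε) * ((v : ℝ) - u) := by
        rw [div_eq_mul_one_div, mul_comm]
        exact mul_le_mul_of_nonneg_left huv (by positivity)
      rw [add_mul, one_mul]
      linarith
    have f1 : (T.card : ℝ) * (μ * LL) ≤ μ * LL * ((v : ℝ) - u) +
        μ * (1 / ε + 1) * Q * ((v : ℝ) - u) := by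
      have e1 : (T.card : ℝ) * (μ * LL) ≤ ((v : ℝ) - u + 1) * (μ * LL) :=
        mul_le_mul_of_nonneg_right hTcard1 (by positivity)
      have e2 : μ * LL ≤ μ * (1 / ε + 1) * Q * ((v : ℝ) - u) := by
        calc μ * LL = μ * Q * Q := by rw [mul_assoc, hQQ]
          _ ≤ μ * Q * ((1 / ε + 1) * ((v : ℝ) - u)) :=
              mul_le_mul_of_nonneg_left hQX (by positivity)
          _ = _ := by ring
      calc _ ≤ _ := e1
        _ = μ * LL * ((v : ℝ) - u) + μ * LL := by ring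
        _ ≤ _ := by linarith
    have f2 : C1 * ((v : ℝ) - u) ≤ C1 / 0.3 * Q * ((v : ℝ) - u) := by
      refine mul_le_mul_of_nonneg_right ?_ hw
      rw [div_mul_eq_mul_div, le_div_iff₀ (by norm_num)]
      exact mul_le_mul_of_nonneg_left hQ0 hC10
    have f3 : 0 ≤ (C1 + D4) * Q * ((v : ℝ) - u) := by positivity
    calc _ ≤ _ := hsumr
      _ ≤ C1 / 0.3 * Q * ((v : ℝ) - u) + (μ * LL * ((v : ℝ) - u) +
            μ * (1 / ε + 1) * Q * ((v : ℝ) - u) + (D + 6) * Q * ((v : ℝ) - u)) := by linarith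
      _ ≤ _ := by
          have f4 : (μ * LL + (C1 / 0.3 + D + 6 + μ * (1 / ε + 1) + (C1 + D4)) * Q) *
              ((v : ℝ) - u) = μ * LL * ((v : ℝ) - u) + C1 / 0.3 * Q * ((v : ℝ) - u) +
              (D + 6) * Q * ((v : ℝ) - u) + μ * (1 / ε + 1) * Q * ((v : ℝ) - u) +
              (C1 + D4) * Q * ((v : ℝ) - u) := by ring
          rw [f4]
          linarith
  · -- bounded average
    intro hneg
    have h1 : ∀ t ∈ T, e t ≤ ∑ c, (d c t - Mc A B c * LL) ^ 2 / (4 * |Mc A B c| * LL) := by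
      intro t _
      obtain ⟨c, hc⟩ := hec t
      have hM : 0 < |Mc A B c| := abs_pos.2 (hneg c).ne
      have h2 : (d c t - Mc A B c * LL) ^ 2 / (4 * |Mc A B c| * LL) ≤
          ∑ c, (d c t - Mc A B c * LL) ^ 2 / (4 * |Mc A B c| * LL) :=
        single_le_sum (f := fun c => (d c t - Mc A B c * LL) ^ 2 / (4 * |Mc A B c| * LL))
          (fun _ _ => by positivity) (mem_univ c)
      refine le_trans ?_ h2
      rw [hc]
      refine max_le ?_ (by positivity)
      rw [le_div_iff₀ (by positivity), abs_of_neg (hneg c)]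
      nlinarith [sq_nonneg (d c t + Mc A B c * LL)]
    have h2 : ∑ t ∈ T, e t ≤ D4 * ((v : ℝ) - u) := by
      calc ∑ t ∈ T, e t ≤ ∑ t ∈ T, ∑ c, (d c t - Mc A B c * LL) ^ 2 / (4 * |Mc A B c| * LL) :=
            sum_le_sum h1
        _ = ∑ c, (∑ t ∈ T, (d c t - Mc A B c * LL) ^ 2) / (4 * |Mc A B c| * LL) := by
            rw [sum_comm]
            exact sum_congr rfl fun c _ => (sum_div _ _ _).symm
        _ ≤ ∑ c, C2 c / (4 * |Mc A B c|) * ((v : ℝ) - u) := by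
            refine sum_le_sum fun c _ => ?_
            have hM : 0 < |Mc A B c| := abs_pos.2 (hneg c).ne
            have h6 := hC2 c X u v hX hu hv huv
            rw [← hLL] at h6
            rw [div_le_iff₀ (by positivity)]
            refine h6.trans (le_of_eq ?_)
            field_simp
        _ = _ := by rw [hD4, sum_mul]
    calc _ ≤ _ := hsumr
      _ ≤ (C1 + D4) * ((v : ℝ) - u) := by linarith
      _ ≤ _ := by
          refine mul_le_mul_of_nonneg_right ?_ hw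
          have : 0 ≤ C1 / 0.3 + D + 6 + μ * (1 / ε + 1) := by positivity
          linarith

end Pool.Agent.L7h19.FT
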