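import Mathlib
import Pool.Agent.L7h19.FT.Stm

/-!
# Project FT: the number of the split primes of a value, in short intervals
-/

set_option autoImplicit false

namespace Pool.Agent.L7h19.FT

open Finset Polynomial Pool.Agent.W262.RK Pool.Agent.L7h19.RP

/-- **S_TKS**: the number of the primes `p ∣ f(t)` for which `κ(t)` is a square modulo `p`. If `κ(θ)`
is a square in `ℚ(θ)` (`f(θ) = 0`) these are almost all primes (`S_TK`, `Pool.Agent.L7h60.IS.s_TK`,
`Pool/Agent/L7h60/IS/Tk.lean`). Otherwise it is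
`(ω(f(t)) + ∑_{p ∣ f(t)} (κ(t) / p)) / 2` up to a bounded error, and with `y = X ^ δ` the primes `> y`
are boundedly many, and for the primes `z < p ≤ y` the second moment of
`∑_{p ∣ f(t)} (κ(t) / p)` is at most `(v - u) ((∑ bw)² + ∑ ρ(p) / p) + O(y²)`-like, where
`|∑ bw| ≤ C` by `S_UP02` (use it as a hypothesis `S_UP02 → S_TKS`). -/
def S_TKS : Prop := ∀ (f κ : ℤ[X]) (ε : ℝ), Irreducible f → 0 < f.natDegree → ¬ f ∣ κ → 0 < ε →
  ∃ C : ℝ, ∀ (X : ℕ) (u v : ℤ), 3 ≤ X → u.natAbs ≤ X → v.natAbs ≤ X → (X : ℝ) ^ ε ≤ (v : ℝ) - u →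
    (IsSquare (AdjoinRoot.mk (f.map (Int.castRingHom ℚ)) (κ.map (Int.castRingHom ℚ))) →
      ∑ t ∈ (Icc u v).filter (fun t : ℤ => f.eval t ≠ 0),
        |((sp (κ.eval t) (f.eval t) : ℕ) : ℝ) - Real.log (Real.log X)| ≤
        C * ((v : ℝ) - u) * √(Real.log (Real.log X))) ∧
    (¬ IsSquare (AdjoinRoot.mk (f.map (Int.castRingHom ℚ)) (κ.map (Int.castRingHom ℚ))) →
      ∑ t ∈ (Icc u v).filter (fun t : ℤ => f.eval t ≠ 0),
        |((sp (κ.eval t) (f.eval t) : ℕ) : ℝ) - Real.log (Real.log X) / 2| ≤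
        C * ((v : ℝ) - u) * √(Real.log (Real.log X)))

end Pool.Agent.L7h19.FT
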